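import Mathlib

/-! Equi-isoclinic families as matrices, and the projection inequality. -/

namespace Pool.Agent.P.MP_c2263a_gt

open Matrix Finset

/-- Rank three orthogonal projections with `P i * P j * P i = lam • P i`. -/
structure Hyp {m v : ℕ} (P : Fin v → Matrix (Fin m) (Fin m) ℝ) (lam : ℝ) : Prop where
  sym : ∀ i, (P i)ᵀ = P i
  idem : ∀ i, P i * P i = P i
  tr : ∀ i, (P i).trace = 3
  iso : ∀ i j, i ≠ j → P i * P j * P i = lam • P i

variable {m v : ℕ} {P : Fin v → Matrix (Fin m) (Fin m) ℝ} {lam : ℝ}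

lemma trace_sq_nonneg {X : Matrix (Fin m) (Fin m) ℝ} (hX : Xᵀ = X) : 0 ≤ (X * X).trace := by
  have : (X * X).trace = ∑ a, ∑ b, X a b ^ 2 := by
    simp only [Matrix.trace, Matrix.diag, Matrix.mul_apply]
    refine sum_congr rfl fun a _ => sum_congr rfl fun b _ => ?_
    have : X b a = X a b := by rw [← Matrix.transpose_apply X a b, hX]
    rw [this]; ring
  rw [this]; positivity

lemma Hyp.tr_mul (h : Hyp P lam) (i j : Fin v) :
    (P i * P j).trace = if i = j then 3 else 3 * lam := by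
  split_ifs with e
  · subst e; rw [h.idem, h.tr]
  · have : (P i * P j).trace = (P i * P j * P i).trace := by
      rw [Matrix.trace_mul_comm (P i * P j) (P i), ← Matrix.mul_assoc, h.idem]
    rw [this, h.iso i j e, Matrix.trace_smul, h.tr]; simp; ring

lemma sum_ite_aux (c : Fin v → ℝ) (s t : ℝ) (i : Fin v) :
    ∑ j, c j * (if i = j then s else t) = t * ∑ j, c j + (s - t) * c i := by
  have : ∀ j, c j * (if i = j then s else t) = t * c j + (if i = j then (s - t) * c j else 0) := by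
    intro j; split_ifs <;> ring
  simp only [this, sum_add_distrib, ← mul_sum, sum_ite_eq, mem_univ, if_true]

/-- Projection of a symmetric matrix onto the span of the `P i`. -/
lemma Hyp.balla (h : Hyp P lam) (h0 : 0 < lam) (h1 : lam < 1) (hv : 1 ≤ v)
    {X : Matrix (Fin m) (Fin m) ℝ} (hX : Xᵀ = X) :
    (lam * v + (1 - lam)) * ∑ i, (X * P i).trace ^ 2 - lam * (∑ i, (X * P i).trace) ^ 2
      ≤ 3 * (1 - lam) * (lam * v + (1 - lam)) * (X * X).trace := by
  set β : ℝ := lam * v + (1 - lam) with hβ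
  set a : Fin v → ℝ := fun i => (X * P i).trace with ha
  set A : ℝ := ∑ i, a i with hA
  set c : Fin v → ℝ := fun i => β * a i - lam * A with hc
  set κ : ℝ := 3 * (1 - lam) * β with hκ
  set Y : Matrix (Fin m) (Fin m) ℝ := ∑ i, c i • P i with hY
  have hv' : (1 : ℝ) ≤ v := by exact_mod_cast hv
  have hβ0 : 0 < β := by rw [hβ]; nlinarith
  have hκ0 : 0 < κ := by rw [hκ]; have : 0 < 1 - lam := by linarith
                         positivity
  have hYs : Yᵀ = Y := by
    rw [hY, Matrix.transpose_sum]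
    exact sum_congr rfl fun i _ => by rw [Matrix.transpose_smul, h.sym]
  have hs : (κ • X - Y)ᵀ = κ • X - Y := by
    rw [Matrix.transpose_sub, Matrix.transpose_smul, hX, hYs]
  have hn := trace_sq_nonneg hs
  have hXY : (X * Y).trace = ∑ i, c i * a i := by
    rw [hY, Matrix.mul_sum, Matrix.trace_sum]
    exact sum_congr rfl fun i _ => by rw [Matrix.mul_smul, Matrix.trace_smul]; rfl
  have hYX : (Y * X).trace = ∑ i, c i * a i := by rw [Matrix.trace_mul_comm, hXY]
  have hsc : ∑ i, c i = (1 - lam) * A := by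
    simp only [hc, sum_sub_distrib, ← mul_sum, sum_const, card_univ, Fintype.card_fin,
      nsmul_eq_mul]
    rw [← hA, hβ]; ring
  have hYY : (Y * Y).trace = 3 * lam * ((1 - lam) * A) ^ 2 + 3 * (1 - lam) * ∑ i, c i ^ 2 := by
    have : (Y * Y).trace = ∑ i, c i * ∑ j, c j * (if i = j then 3 else 3 * lam) := by
      rw [hY, Matrix.sum_mul, Matrix.trace_sum]
      refine sum_congr rfl fun i _ => ?_
      rw [Matrix.smul_mul, Matrix.trace_smul, Matrix.mul_sum, Matrix.trace_sum, smul_eq_mul]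
      congr 1
      exact sum_congr rfl fun j _ => by
        rw [Matrix.mul_smul, Matrix.trace_smul, h.tr_mul, smul_eq_mul]
    rw [this]
    simp only [sum_ite_aux, mul_add, sum_add_distrib]
    rw [← sum_mul, hsc]
    congr 1
    · ring
    · rw [mul_sum]
      exact sum_congr rfl fun i _ => by ring
  have hca : ∑ i, c i * a i = β * ∑ i, a i ^ 2 - lam * A ^ 2 := by
    have : ∀ i, c i * a i = β * a i ^ 2 - lam * A * a i := fun i => by rw [hc]; ring
    simp only [this, sum_sub_distrib, ← mul_sum]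
    rw [← hA]; ring
  have hcc : ∑ i, c i ^ 2 = β ^ 2 * ∑ i, a i ^ 2 - 2 * β * lam * A ^ 2 + v * (lam * A) ^ 2 := by
    have : ∀ i, c i ^ 2 = β ^ 2 * a i ^ 2 - 2 * β * lam * A * a i + (lam * A) ^ 2 := fun i => by
      rw [hc]; ring
    simp only [this, sum_add_distrib, sum_sub_distrib, ← mul_sum, sum_const, card_univ,
      Fintype.card_fin, nsmul_eq_mul]
    rw [← hA]; ring
  have hexp : ((κ • X - Y) * (κ • X - Y)).trace
      = κ ^ 2 * (X * X).trace - κ * (X * Y).trace - κ * (Y * X).trace + (Y * Y).trace := by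
    simp only [Matrix.sub_mul, Matrix.mul_sub, Matrix.smul_mul, Matrix.mul_smul,
      Matrix.trace_sub, Matrix.trace_smul, smul_eq_mul]
    ring
  rw [hexp, hXY, hYX, hYY, hca, hcc] at hn
  have hfin : 0 ≤ κ * (κ * (X * X).trace - (β * ∑ i, a i ^ 2 - lam * A ^ 2)) := by
    have e : κ * (κ * (X * X).trace - (β * ∑ i, a i ^ 2 - lam * A ^ 2))
        = κ ^ 2 * (X * X).trace - κ * (β * ∑ i, a i ^ 2 - lam * A ^ 2)
          - κ * (β * ∑ i, a i ^ 2 - lam * A ^ 2)
          + (3 * lam * ((1 - lam) * A) ^ 2 + 3 * (1 - lam) * (β ^ 2 * ∑ i, a i ^ 2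
            - 2 * β * lam * A ^ 2 + v * (lam * A) ^ 2)) := by
      rw [hκ, hβ]; ring
    rw [e]; exact hn
  linarith [(mul_nonneg_iff_of_pos_left hκ0).1 hfin]

lemma trace_vecMulVec_mul (x y : Fin m → ℝ) (M : Matrix (Fin m) (Fin m) ℝ) :
    (vecMulVec x y * M).trace = y ⬝ᵥ (M *ᵥ x) := by
  simp only [Matrix.trace, Matrix.diag, Matrix.mul_apply, vecMulVec_apply, dotProduct, mulVec,
    mul_sum]
  rw [sum_comm]
  exact sum_congr rfl fun a _ => sum_congr rfl fun b _ => by ring

lemma vecMulVec_mulVec' (x y z : Fin m → ℝ) : vecMulVec x y *ᵥ z = (y ⬝ᵥ z) • x := by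
  ext a
  simp only [mulVec, dotProduct, vecMulVec_apply, Pi.smul_apply, smul_eq_mul, sum_mul]
  exact sum_congr rfl fun b _ => by ring

lemma dot_sym {M : Matrix (Fin m) (Fin m) ℝ} (hM : Mᵀ = M) (x y : Fin m → ℝ) :
    x ⬝ᵥ (M *ᵥ y) = (M *ᵥ x) ⬝ᵥ y := by
  rw [dotProduct_mulVec, ← mulVec_transpose, hM]

end Pool.Agent.P.MP_c2263a_gt
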