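import Pool.Agent.P.MP_c2263a_gt.Basic

/-! Inequalities satisfied by an eigenvalue of the sum of the projections. -/

namespace Pool.Agent.P.MP_c2263a_gt

open Matrix Finset

variable {m v : ℕ} {P : Fin v → Matrix (Fin m) (Fin m) ℝ} {lam : ℝ}

lemma Hyp.PP (h : Hyp P lam) (j : Fin v) (x : Fin m → ℝ) : P j *ᵥ (P j *ᵥ x) = P j *ᵥ x := by
  rw [mulVec_mulVec, h.idem]

lemma Hyp.dot (h : Hyp P lam) (j : Fin v) (x w : Fin m → ℝ) :
    x ⬝ᵥ (P j *ᵥ w) = (P j *ᵥ x) ⬝ᵥ w := dot_sym (h.sym j) x w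

lemma Hyp.isov (h : Hyp P lam) {i j : Fin v} (e : j ≠ i) (x : Fin m → ℝ) :
    P j *ᵥ (P i *ᵥ (P j *ᵥ x)) = lam • (P j *ᵥ x) := by
  rw [mulVec_mulVec, mulVec_mulVec, h.iso j i e, smul_mulVec]

lemma Hyp.zz (h : Hyp P lam) (j : Fin v) (y : Fin m → ℝ) :
    (P j *ᵥ y) ⬝ᵥ (P j *ᵥ y) = y ⬝ᵥ (P j *ᵥ y) := by
  rw [← h.dot, h.PP]

lemma Hyp.zPz (h : Hyp P lam) {i j : Fin v} (e : j ≠ i) (y : Fin m → ℝ) :
    (P j *ᵥ y) ⬝ᵥ (P i *ᵥ (P j *ᵥ y)) = lam * (y ⬝ᵥ (P j *ᵥ y)) := by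
  rw [← h.dot, h.isov e, dotProduct_smul, smul_eq_mul]

lemma so_sym (x y : Fin m → ℝ) :
    (vecMulVec x y + vecMulVec y x)ᵀ = vecMulVec x y + vecMulVec y x := by
  rw [transpose_add, transpose_vecMulVec, transpose_vecMulVec, add_comm]

lemma so_trace (x y : Fin m → ℝ) {M : Matrix (Fin m) (Fin m) ℝ} (hM : Mᵀ = M) :
    ((vecMulVec x y + vecMulVec y x) * M).trace = 2 * (x ⬝ᵥ (M *ᵥ y)) := by
  rw [Matrix.add_mul, trace_add, trace_vecMulVec_mul, trace_vecMulVec_mul, dot_sym hM y x,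
    dotProduct_comm (M *ᵥ y) x]
  ring

lemma so_mulVec (x y w : Fin m → ℝ) :
    (vecMulVec x y + vecMulVec y x) *ᵥ w = (y ⬝ᵥ w) • x + (x ⬝ᵥ w) • y := by
  rw [add_mulVec, vecMulVec_mulVec', vecMulVec_mulVec']

lemma dot_self_eq (x : Fin m → ℝ) : x ⬝ᵥ x = ∑ a, x a ^ 2 := by
  simp only [dotProduct, sq]

lemma dot_self_nonneg (x : Fin m → ℝ) : 0 ≤ x ⬝ᵥ x := by
  rw [dot_self_eq]; positivity

section eig

variable {y : Fin m → ℝ} {μ : ℝ}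

lemma sum_z (hy : (∑ i, P i) *ᵥ y = μ • y) : ∑ i, P i *ᵥ y = μ • y := by
  rw [← hy, sum_mulVec]

lemma sum_z_dot (hy : (∑ i, P i) *ᵥ y = μ • y) (w : Fin m → ℝ) :
    ∑ i, (P i *ᵥ y) ⬝ᵥ w = μ * (y ⬝ᵥ w) := by
  rw [← sum_dotProduct, sum_z hy, smul_dotProduct, smul_eq_mul]

lemma sum_r (h1 : y ⬝ᵥ y = 1) (hy : (∑ i, P i) *ᵥ y = μ • y) :
    ∑ i, y ⬝ᵥ (P i *ᵥ y) = μ := by
  have := sum_z_dot hy y
  rw [h1, mul_one] at this
  rw [← this]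
  exact sum_congr rfl fun i _ => dotProduct_comm _ _

/-- The cubic inequality, one plane and one coordinate. -/
lemma Hyp.cubic_one (h : Hyp P lam) (h0 : 0 < lam) (h1 : lam < 1) (hv : 1 ≤ v)
    (hy1 : y ⬝ᵥ y = 1) (hy : (∑ i, P i) *ᵥ y = μ • y) (j : Fin v) (a : Fin m) :
    (lam * v + (1 - lam)) * ∑ i, (P j *ᵥ (P i *ᵥ y)) a ^ 2 - lam * μ ^ 2 * (P j *ᵥ y) a ^ 2
      ≤ 3 * (1 - lam) * (lam * v + (1 - lam)) *
        ((1 - y ⬝ᵥ (P j *ᵥ y)) / 2 * (P j * P j) a a + (P j *ᵥ y) a ^ 2 / 3) := by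
  set u : Fin m → ℝ := P j *ᵥ Pi.single a 1 with hu
  set z : Fin m → ℝ := P j *ᵥ y with hz
  set w : Fin m → ℝ := y - z with hw
  have hdu : ∀ b : Fin m → ℝ, b ⬝ᵥ u = (P j *ᵥ b) a := fun b => by
    rw [hu, h.dot, dotProduct_single, mul_one]
  have hPu : P j *ᵥ u = u := by rw [hu, h.PP]
  have hPw : P j *ᵥ w = 0 := by rw [hw, mulVec_sub, hz, h.PP, sub_self]
  have hwu : w ⬝ᵥ u = 0 := by rw [hdu, hPw]; rfl
  have hww : w ⬝ᵥ w = 1 - y ⬝ᵥ z := by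
    rw [hw, sub_dotProduct, dotProduct_sub, dotProduct_sub, hy1, dotProduct_comm z y, hz, h.zz]
    ring
  have huu : u ⬝ᵥ u = (P j * P j) a a := by
    rw [hdu, hPu, h.idem, hu, mulVec_single_one]; rfl
  set X : Matrix (Fin m) (Fin m) ℝ := (vecMulVec w u + vecMulVec u w) + (2 / 3 * z a) • P j
    with hX
  have hXs : Xᵀ = X := by rw [hX, transpose_add, so_sym, transpose_smul, h.sym]
  have hXP : ∀ i, (X * P i).trace = 2 * (P j *ᵥ (P i *ᵥ y)) a := fun i => by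
    rw [hX, Matrix.add_mul, trace_add, so_trace _ _ (h.sym i), Matrix.smul_mul, trace_smul,
      h.tr_mul, hw, sub_dotProduct, h.dot i y u, hdu, h.dot i z u, hdu]
    split_ifs with e
    · subst e
      rw [hz, h.PP, h.PP]; simp only [smul_eq_mul]; ring
    · rw [hz, h.isov e]; simp only [smul_eq_mul, Pi.smul_apply]; ring
  have hXX : (X * X).trace = 2 * ((1 - y ⬝ᵥ z) * (P j * P j) a a) + 4 / 3 * z a ^ 2 := by
    have e1 : (X * X).trace = 2 * (w ⬝ᵥ (X *ᵥ u)) + (2 / 3 * z a) * (X * P j).trace := by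
      conv_lhs => rw [hX, Matrix.add_mul, ← hX]
      rw [trace_add, so_trace _ _ hXs, Matrix.smul_mul, trace_smul, trace_mul_comm (P j) X,
        smul_eq_mul]
    have e2 : w ⬝ᵥ (X *ᵥ u) = (1 - y ⬝ᵥ z) * (P j * P j) a a := by
      rw [hX, add_mulVec, so_mulVec, smul_mulVec, hPu, dotProduct_add, dotProduct_add,
        dotProduct_smul, dotProduct_smul, dotProduct_smul, hwu, hww, huu]
      simp only [smul_eq_mul]; ring
    rw [e1, e2, hXP, hz, h.PP]; ring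
  have hb := h.balla h0 h1 hv hXs
  simp only [hXP] at hb
  have hs : ∑ i, 2 * (P j *ᵥ (P i *ᵥ y)) a = 2 * (μ * z a) := by
    rw [← mul_sum, ← Finset.sum_apply, ← mulVec_sum, sum_z hy, mulVec_smul]; rfl
  have hs2 : ∑ i, (2 * (P j *ᵥ (P i *ᵥ y)) a) ^ 2 = 4 * ∑ i, (P j *ᵥ (P i *ᵥ y)) a ^ 2 := by
    rw [mul_sum]; exact sum_congr rfl fun i _ => by ring
  rw [hs, hs2, hXX] at hb
  linarith

lemma Hyp.cubic (h : Hyp P lam) (h0 : 0 < lam) (h1 : lam < 1) (hv : 1 ≤ v)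
    (hy1 : y ⬝ᵥ y = 1) (hy : (∑ i, P i) *ᵥ y = μ • y) :
    (lam * v + (1 - lam)) ^ 2 * μ - lam * μ ^ 3
      ≤ 3 * (1 - lam) * (lam * v + (1 - lam)) * (3 * (v - μ) / 2 + μ / 3) := by
  set β : ℝ := lam * v + (1 - lam) with hβ
  set r : Fin v → ℝ := fun j => y ⬝ᵥ (P j *ᵥ y) with hr
  have hsr : ∑ j, r j = μ := sum_r hy1 hy
  have hj : ∀ j, β * (lam * μ + (1 - lam) * r j) - lam * μ ^ 2 * r j
      ≤ 3 * (1 - lam) * β * ((1 - r j) / 2 * 3 + r j / 3) := fun j => by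
    have hs := sum_le_sum fun a (_ : a ∈ univ) => h.cubic_one h0 h1 hv hy1 hy j a
    rw [sum_sub_distrib, ← mul_sum, ← mul_sum, ← mul_sum, sum_add_distrib, ← mul_sum, sum_comm,
      ← sum_div, ← dot_self_eq, h.zz] at hs
    have e1 : ∑ a, (P j * P j) a a = 3 := by rw [h.idem]; exact h.tr j
    have e2 : ∑ i, ∑ a, (P j *ᵥ (P i *ᵥ y)) a ^ 2 = lam * μ + (1 - lam) * r j := by
      have : ∀ i, ∑ a, (P j *ᵥ (P i *ᵥ y)) a ^ 2 = r i * (if j = i then 1 else lam) := fun i => by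
        rw [← dot_self_eq, h.zz]
        split_ifs with e
        · subst e; rw [h.PP, h.zz, mul_one]
        · rw [h.zPz (Ne.symm e), mul_comm]
      simp only [this]
      rw [sum_ite_aux, hsr]
    rw [e1, e2] at hs
    exact hs
  have hs := sum_le_sum fun j (_ : j ∈ univ) => hj j
  simp only [sum_sub_distrib, sum_add_distrib, ← mul_sum, ← sum_mul, ← sum_div, hsr, sum_const,
    card_univ, Fintype.card_fin, nsmul_eq_mul] at hs
  have e : β * (lam * (↑v * μ) + (1 - lam) * μ) = β ^ 2 * μ := by rw [hβ]; ring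
  rw [e] at hs
  nlinarith

lemma Hyp.sigma (h : Hyp P lam) (h0 : 0 < lam) (h1 : lam < 1) (hv : 1 ≤ v)
    (hy1 : y ⬝ᵥ y = 1) (hy : (∑ i, P i) *ᵥ y = μ • y) :
    (lam * v + (1 - lam)) * ∑ i, (y ⬝ᵥ (P i *ᵥ y)) ^ 2 - lam * μ ^ 2
      ≤ 3 * (1 - lam) * (lam * v + (1 - lam)) := by
  have hb := h.balla h0 h1 hv (X := vecMulVec y y) (transpose_vecMulVec y y)
  simp only [trace_vecMulVec_mul] at hb
  rw [sum_r hy1 hy, vecMulVec_mulVec', hy1, one_smul, hy1, mul_one] at hb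
  exact hb

lemma Hyp.perp_one (h : Hyp P lam) (h0 : 0 < lam) (h1 : lam < 1) (hv : 1 ≤ v)
    (hy1 : y ⬝ᵥ y = 1) (hy : (∑ i, P i) *ᵥ y = μ • y) (j : Fin v) :
    ∑ i, ((P i *ᵥ y) ⬝ᵥ (P j *ᵥ y - (y ⬝ᵥ (P j *ᵥ y)) • y)) ^ 2
      ≤ (1 - lam) * (3 / 2 * (y ⬝ᵥ (P j *ᵥ y) - (y ⬝ᵥ (P j *ᵥ y)) ^ 2)
        - 2 * (y ⬝ᵥ (P j *ᵥ y) - (y ⬝ᵥ (P j *ᵥ y)) ^ 2) ^ 2) := by
  set z : Fin m → ℝ := P j *ᵥ y with hz
  set r : ℝ := y ⬝ᵥ z with hr
  set w : Fin m → ℝ := z - r • y with hw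
  have hzz : z ⬝ᵥ z = r := by rw [hz, h.zz]
  have hzy : z ⬝ᵥ y = r := by rw [dotProduct_comm]
  have hPz : P j *ᵥ z = z := by rw [hz, h.PP]
  have hyw : y ⬝ᵥ w = 0 := by
    rw [hw, dotProduct_sub, dotProduct_smul, hy1, smul_eq_mul, ← hr]; ring
  have hzw : z ⬝ᵥ w = r - r ^ 2 := by
    rw [hw, dotProduct_sub, dotProduct_smul, hzz, hzy, smul_eq_mul]; ring
  have hww : w ⬝ᵥ w = r - r ^ 2 := by
    conv_lhs => rw [hw, sub_dotProduct, smul_dotProduct, ← hw]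
    rw [hzw, hyw, smul_eq_mul]; ring
  set N : Matrix (Fin m) (Fin m) ℝ := vecMulVec z z - (r / 3) • P j with hN
  have hNs : Nᵀ = N := by rw [hN, transpose_sub, transpose_vecMulVec, transpose_smul, h.sym]
  have hNP : ∀ i, (N * P i).trace = 0 := fun i => by
    rw [hN, Matrix.sub_mul, trace_sub, trace_vecMulVec_mul, Matrix.smul_mul, trace_smul, h.tr_mul]
    split_ifs with e
    · subst e; rw [hPz, hzz, smul_eq_mul]; ring
    · rw [hz, h.zPz e, ← hz, ← hr, smul_eq_mul]; ring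
  set X : Matrix (Fin m) (Fin m) ℝ := (vecMulVec y w + vecMulVec w y) - (2 * (1 - r)) • N with hX
  have hXs : Xᵀ = X := by rw [hX, transpose_sub, so_sym, transpose_smul, hNs]
  have hXP : ∀ i, (X * P i).trace = 2 * ((P i *ᵥ y) ⬝ᵥ w) := fun i => by
    rw [hX, Matrix.sub_mul, trace_sub, so_trace _ _ (h.sym i), Matrix.smul_mul, trace_smul, hNP,
      h.dot, smul_zero, sub_zero]
  have hNw : y ⬝ᵥ (N *ᵥ w) = 2 / 3 * r * (r - r ^ 2) := by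
    rw [hN, sub_mulVec, vecMulVec_mulVec', smul_mulVec, dotProduct_sub, dotProduct_smul,
      dotProduct_smul, h.dot j y w, ← hz, hzw, ← hr]
    simp only [smul_eq_mul]; ring
  have hNN : (N * N).trace = 2 / 3 * r ^ 2 := by
    conv_lhs => rw [hN, Matrix.sub_mul, ← hN]
    rw [trace_sub, trace_vecMulVec_mul, Matrix.smul_mul, trace_smul, trace_mul_comm, hNP,
      smul_zero, sub_zero, hN, sub_mulVec, vecMulVec_mulVec', smul_mulVec, hPz, dotProduct_sub,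
      dotProduct_smul, dotProduct_smul, hzz]
    simp only [smul_eq_mul]; ring
  have hXX : (X * X).trace = 2 * (r - r ^ 2) - 8 / 3 * (r - r ^ 2) ^ 2 := by
    have e1 : (X * X).trace = 2 * (y ⬝ᵥ (X *ᵥ w)) - (2 * (1 - r)) * (X * N).trace := by
      conv_lhs => rw [hX, Matrix.sub_mul, ← hX]
      rw [trace_sub, so_trace _ _ hXs, Matrix.smul_mul, trace_smul, trace_mul_comm N X,
        smul_eq_mul]
    have e2 : y ⬝ᵥ (X *ᵥ w) = (r - r ^ 2) - 2 * (1 - r) * (2 / 3 * r * (r - r ^ 2)) := by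
      rw [hX, sub_mulVec, so_mulVec, smul_mulVec, dotProduct_sub, dotProduct_add,
        dotProduct_smul, dotProduct_smul, dotProduct_smul, hNw, hww, hyw, hy1]
      simp only [smul_eq_mul]; ring
    have e3 : (X * N).trace = 2 * (2 / 3 * r * (r - r ^ 2)) - 2 * (1 - r) * (2 / 3 * r ^ 2) := by
      rw [hX, Matrix.sub_mul, trace_sub, so_trace _ _ hNs, Matrix.smul_mul, trace_smul, hNN, hNw,
        smul_eq_mul]
    rw [e1, e2, e3]; ring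
  have hb := h.balla h0 h1 hv hXs
  simp only [hXP] at hb
  have hs : ∑ i, 2 * ((P i *ᵥ y) ⬝ᵥ w) = 0 := by
    rw [← mul_sum, sum_z_dot hy, hyw]; ring
  have hs2 : ∑ i, (2 * ((P i *ᵥ y) ⬝ᵥ w)) ^ 2 = 4 * ∑ i, ((P i *ᵥ y) ⬝ᵥ w) ^ 2 := by
    rw [mul_sum]; exact sum_congr rfl fun i _ => by ring
  rw [hs, hs2, hXX] at hb
  have hv' : (1 : ℝ) ≤ v := by exact_mod_cast hv
  have hβ0 : 0 < lam * v + (1 - lam) := by nlinarith
  have : (lam * v + (1 - lam)) * ∑ i, ((P i *ᵥ y) ⬝ᵥ w) ^ 2 ≤ (lam * v + (1 - lam)) *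
      ((1 - lam) * (3 / 2 * (r - r ^ 2) - 2 * (r - r ^ 2) ^ 2)) := by nlinarith
  exact le_of_mul_le_mul_left this hβ0

lemma cs_perp (hm : 2 ≤ m) (hy1 : y ⬝ᵥ y = 1) (w : Fin v → Fin m → ℝ) (hw : ∀ j, y ⬝ᵥ w j = 0) :
    (∑ j, w j ⬝ᵥ w j) ^ 2 ≤ ((m : ℝ) - 1) * ∑ j, ∑ i, (w i ⬝ᵥ w j) ^ 2 := by
  set Ω : Matrix (Fin m) (Fin m) ℝ := ∑ j, vecMulVec (w j) (w j) with hΩ
  set N : Matrix (Fin m) (Fin m) ℝ := 1 - vecMulVec y y with hN
  set S : ℝ := ∑ j, w j ⬝ᵥ w j with hS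
  set M : ℝ := (m : ℝ) - 1 with hM
  have hM0 : 0 < M := by
    have : (2 : ℝ) ≤ m := by exact_mod_cast hm
    rw [hM]; linarith
  have hΩs : Ωᵀ = Ω := by
    rw [hΩ, transpose_sum]; exact sum_congr rfl fun j _ => transpose_vecMulVec _ _
  have hNs : Nᵀ = N := by rw [hN, transpose_sub, transpose_one, transpose_vecMulVec]
  have hs : (M • Ω - S • N)ᵀ = M • Ω - S • N := by
    rw [transpose_sub, transpose_smul, transpose_smul, hΩs, hNs]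
  have hn := trace_sq_nonneg hs
  have hNw : ∀ j, N *ᵥ w j = w j := fun j => by
    rw [hN, sub_mulVec, one_mulVec, vecMulVec_mulVec', hw, zero_smul, sub_zero]
  have hΩN : (Ω * N).trace = S := by
    rw [hΩ, Matrix.sum_mul, trace_sum]
    exact sum_congr rfl fun j _ => by rw [trace_vecMulVec_mul, hNw]
  have hΩΩ : (Ω * Ω).trace = ∑ j, ∑ i, (w i ⬝ᵥ w j) ^ 2 := by
    conv_lhs => rw [hΩ, Matrix.sum_mul, ← hΩ]
    rw [trace_sum]
    refine sum_congr rfl fun j _ => ?_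
    rw [trace_vecMulVec_mul, hΩ, sum_mulVec, dotProduct_sum]
    exact sum_congr rfl fun i _ => by
      rw [vecMulVec_mulVec', dotProduct_smul, dotProduct_comm (w j) (w i), smul_eq_mul, sq]
  have hNN : (N * N).trace = M := by
    conv_lhs => rw [hN, Matrix.sub_mul, ← hN]
    rw [trace_sub, Matrix.one_mul, trace_vecMulVec_mul, hN, trace_sub, trace_one, sub_mulVec,
      one_mulVec, vecMulVec_mulVec', hy1, one_smul, sub_self, dotProduct_zero,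
      ← Matrix.mul_one (vecMulVec y y), trace_vecMulVec_mul, one_mulVec, hy1, Fintype.card_fin,
      hM, sub_zero]
  have hexp : ((M • Ω - S • N) * (M • Ω - S • N)).trace
      = M ^ 2 * (Ω * Ω).trace - M * S * (Ω * N).trace - M * S * (N * Ω).trace
        + S ^ 2 * (N * N).trace := by
    simp only [Matrix.sub_mul, Matrix.mul_sub, Matrix.smul_mul, Matrix.mul_smul,
      Matrix.trace_sub, Matrix.trace_smul, smul_eq_mul]
    ring
  rw [hexp, trace_mul_comm N Ω, hΩN, hΩΩ, hNN] at hn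
  have : M * S ^ 2 ≤ M * (M * ∑ j, ∑ i, (w i ⬝ᵥ w j) ^ 2) := by nlinarith
  exact le_of_mul_le_mul_left this hM0

lemma Hyp.perp (h : Hyp P lam) (h0 : 0 < lam) (h1 : lam < 1) (hv : 1 ≤ v) (hm : 2 ≤ m)
    (hy1 : y ⬝ᵥ y = 1) (hy : (∑ i, P i) *ᵥ y = μ • y) :
    (μ - ∑ i, (y ⬝ᵥ (P i *ᵥ y)) ^ 2) ^ 2 * v ≤ (1 - lam) * ((m : ℝ) - 1) *
      (3 / 2 * (μ - ∑ i, (y ⬝ᵥ (P i *ᵥ y)) ^ 2) * v
        - 2 * (μ - ∑ i, (y ⬝ᵥ (P i *ᵥ y)) ^ 2) ^ 2) := by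
  set r : Fin v → ℝ := fun j => y ⬝ᵥ (P j *ᵥ y) with hr
  set w : Fin v → Fin m → ℝ := fun j => P j *ᵥ y - r j • y with hw
  set S : ℝ := μ - ∑ i, r i ^ 2 with hS
  have hyw : ∀ j, y ⬝ᵥ w j = 0 := fun j => by
    simp only [hw, hr]
    rw [dotProduct_sub, dotProduct_smul, hy1, smul_eq_mul]; ring
  have hzw : ∀ i j, w i ⬝ᵥ w j = (P i *ᵥ y) ⬝ᵥ w j := fun i j => by
    conv_lhs => rw [show w i = P i *ᵥ y - r i • y from rfl]
    rw [sub_dotProduct, smul_dotProduct, hyw, smul_zero, sub_zero]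
  have hww : ∀ j, w j ⬝ᵥ w j = r j - r j ^ 2 := fun j => by
    rw [hzw]
    conv_lhs => rw [show w j = P j *ᵥ y - r j • y from rfl]
    rw [dotProduct_sub, dotProduct_smul, h.zz, dotProduct_comm (P j *ᵥ y) y, smul_eq_mul]
    simp only [hr]; ring
  have hSx : ∑ j, (r j - r j ^ 2) = S := by rw [sum_sub_distrib, sum_r hy1 hy]
  have hcs := cs_perp hm hy1 w hyw
  simp only [hww, hSx] at hcs
  have hΦ : ∑ j, ∑ i, (w i ⬝ᵥ w j) ^ 2
      ≤ (1 - lam) * (3 / 2 * S - 2 * ∑ j, (r j - r j ^ 2) ^ 2) := by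
    have := sum_le_sum fun j (_ : j ∈ univ) => h.perp_one h0 h1 hv hy1 hy j
    rw [← mul_sum, sum_sub_distrib, ← mul_sum, ← mul_sum] at this
    simp only [hzw]
    rw [← hSx]
    exact this
  have hq : S ^ 2 ≤ v * ∑ j, (r j - r j ^ 2) ^ 2 := by
    have := sq_sum_le_card_mul_sum_sq (s := (univ : Finset (Fin v))) (f := fun j => r j - r j ^ 2)
    rwa [hSx, card_univ, Fintype.card_fin] at this
  have hv' : (1 : ℝ) ≤ v := by exact_mod_cast hv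
  have hM : (0 : ℝ) ≤ (m : ℝ) - 1 := by
    have : (2 : ℝ) ≤ m := by exact_mod_cast hm
    linarith
  have hu : 0 ≤ 1 - lam := by linarith
  have e1 := mul_le_mul_of_nonneg_left hΦ hM
  have e2 := mul_le_mul_of_nonneg_right (hcs.trans e1) (by linarith : (0 : ℝ) ≤ v)
  have e3 := mul_le_mul_of_nonneg_left hq (mul_nonneg hu hM)
  nlinarith

lemma Hyp.mu_le (h : Hyp P lam) {a : ℝ} (ha : 0 < a) (hl : lam = a ^ 2)
    (hy1 : y ⬝ᵥ y = 1) (hy : (∑ i, P i) *ᵥ y = μ • y) (hμ : 0 < μ) :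
    μ ≤ a * v + (1 - a) := by
  set r : Fin v → ℝ := fun j => y ⬝ᵥ (P j *ᵥ y) with hr
  have hsr : ∑ j, r j = μ := sum_r hy1 hy
  have hij : ∀ i j, (P i *ᵥ y) ⬝ᵥ (P j *ᵥ y)
      ≤ a / 2 * r i + a / 2 * r j + (if i = j then (1 - a) * r j else 0) := fun i j => by
    split_ifs with e
    · subst e; rw [h.zz]; simp only [hr]; linarith
    · have hn := dot_self_nonneg (a • (P i *ᵥ y) - P i *ᵥ (P j *ᵥ y))
      have e1 : (P i *ᵥ y) ⬝ᵥ (P i *ᵥ (P j *ᵥ y)) = (P i *ᵥ y) ⬝ᵥ (P j *ᵥ y) := by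
        rw [h.dot i (P i *ᵥ y), h.PP]
      rw [sub_dotProduct, dotProduct_sub, dotProduct_sub, smul_dotProduct, smul_dotProduct,
        dotProduct_smul, dotProduct_smul, h.zz, h.zz i (P j *ᵥ y), h.zPz (Ne.symm e),
        dotProduct_comm (P i *ᵥ (P j *ᵥ y)), e1, hl] at hn
      simp only [smul_eq_mul] at hn
      have : a * ((P i *ᵥ y) ⬝ᵥ (P j *ᵥ y)) ≤ a * (a / 2 * r i + a / 2 * r j + 0) := by
        simp only [hr]; nlinarith
      exact le_of_mul_le_mul_left this ha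
  have hs := sum_le_sum fun j (_ : j ∈ univ) => sum_le_sum fun i (_ : i ∈ univ) => hij i j
  simp only [sum_z_dot hy, sum_add_distrib, ← mul_sum, sum_ite_eq', mem_univ, if_true, sum_const,
    card_univ, Fintype.card_fin, nsmul_eq_mul] at hs
  rw [hsr] at hs
  have : μ * μ ≤ μ * (a * v + (1 - a)) := by nlinarith
  exact le_of_mul_le_mul_left this hμ

end eig

end Pool.Agent.P.MP_c2263a_gt
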