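import Pool.Agent.P.MP_c2263a_gt.Basic

/-! The relative bound and the degree four linear programming bound. -/

namespace Pool.Agent.P.MP_c2263a_gt

open Matrix Finset

variable {m v : ℕ} {P : Fin v → Matrix (Fin m) (Fin m) ℝ} {lam : ℝ}

lemma sum_sum_ite (s t : ℝ) :
    ∑ i : Fin v, ∑ j : Fin v, (if i = j then s else t) = v * (t * v + (s - t)) := by
  have : ∀ i : Fin v, ∑ j : Fin v, (if i = j then s else t) = t * v + (s - t) := fun i => by
    have := sum_ite_aux (fun _ : Fin v => (1 : ℝ)) s t i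
    simpa using this
  simp only [this, sum_const, card_univ, Fintype.card_fin, nsmul_eq_mul]

lemma Hyp.sum_sym (h : Hyp P lam) : (∑ i, P i)ᵀ = ∑ i, P i := by
  rw [transpose_sum]; exact sum_congr rfl fun i _ => h.sym i

lemma Hyp.trace_sum (h : Hyp P lam) : (∑ i, P i).trace = 3 * v := by
  rw [Matrix.trace_sum]; simp [h.tr, mul_comm]

lemma Hyp.trace_sum_sq (h : Hyp P lam) :
    ((∑ i, P i) * (∑ i, P i)).trace = 3 * v * (lam * v + (1 - lam)) := by
  rw [Matrix.sum_mul, Matrix.trace_sum]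
  simp only [Matrix.mul_sum, Matrix.trace_sum, h.tr_mul]
  rw [sum_sum_ite]; ring

lemma Hyp.rel (h : Hyp P lam) (hv : 1 ≤ v) (hm : 1 ≤ m) :
    3 * (v : ℝ) ≤ m * (lam * v + (1 - lam)) := by
  set S := ∑ i, P i with hS
  have hs : ((m : ℝ) • S - (3 * v : ℝ) • (1 : Matrix (Fin m) (Fin m) ℝ))ᵀ
      = (m : ℝ) • S - (3 * v : ℝ) • 1 := by
    rw [transpose_sub, transpose_smul, transpose_smul, transpose_one, hS, h.sum_sym]
  have hn := trace_sq_nonneg hs
  simp only [Matrix.sub_mul, Matrix.mul_sub, Matrix.smul_mul, Matrix.mul_smul, Matrix.mul_one,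
    Matrix.one_mul, Matrix.trace_sub, Matrix.trace_smul, smul_eq_mul, trace_one,
    Fintype.card_fin] at hn
  rw [hS, h.trace_sum_sq, h.trace_sum] at hn
  have hv' : (1 : ℝ) ≤ v := by exact_mod_cast hv
  have hm' : (1 : ℝ) ≤ m := by exact_mod_cast hm
  have hp : (0 : ℝ) < 3 * v * m := by positivity
  have : 3 * v * m * (3 * (v : ℝ)) ≤ 3 * v * m * (m * (lam * v + (1 - lam))) := by nlinarith
  exact le_of_mul_le_mul_left this hp

/-- Sum over four indices. -/
def s4 (f : Fin m → Fin m → Fin m → Fin m → ℝ) : ℝ := ∑ a, ∑ b, ∑ c, ∑ d, f a b c d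

lemma s4_bc (f : Fin m → Fin m → Fin m → Fin m → ℝ) :
    s4 f = s4 fun a b c d => f a c b d := sum_congr rfl fun _ _ => sum_comm

lemma s4_cd (f : Fin m → Fin m → Fin m → Fin m → ℝ) :
    s4 f = s4 fun a b c d => f a b d c :=
  sum_congr rfl fun _ _ => sum_congr rfl fun _ _ => sum_comm

lemma s4_congr {f g : Fin m → Fin m → Fin m → Fin m → ℝ} (h : ∀ a b c d, f a b c d = g a b c d) :
    s4 f = s4 g := by
  have : f = g := by funext a b c d; exact h a b c d
  rw [this]

lemma s4_add (f g : Fin m → Fin m → Fin m → Fin m → ℝ) :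
    s4 (fun a b c d => f a b c d + g a b c d) = s4 f + s4 g := by
  simp only [s4, sum_add_distrib]

lemma s4_smul (t : ℝ) (f : Fin m → Fin m → Fin m → Fin m → ℝ) :
    s4 (fun a b c d => t * f a b c d) = t * s4 f := by
  simp only [s4, mul_sum]

lemma s4_sum {ι : Type} (s : Finset ι) (f : ι → Fin m → Fin m → Fin m → Fin m → ℝ) :
    s4 (fun a b c d => ∑ i ∈ s, f i a b c d) = ∑ i ∈ s, s4 (f i) := by
  classical
  induction s using Finset.induction_on with
  | empty => simp [s4]
  | insert i s hi ih => simp only [sum_insert hi]; rw [s4_add, ih]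

lemma s4_sq_nonneg (f : Fin m → Fin m → Fin m → Fin m → ℝ) :
    0 ≤ s4 fun a b c d => f a b c d * f a b c d := by
  unfold s4
  exact sum_nonneg fun _ _ => sum_nonneg fun _ _ => sum_nonneg fun _ _ => sum_nonneg fun _ _ =>
    mul_self_nonneg _

/-- The symmetrised square of a matrix. -/
def sg (A : Matrix (Fin m) (Fin m) ℝ) (a b c d : Fin m) : ℝ :=
  A a b * A c d + A a c * A b d + A a d * A b c

lemma s4_sg {A B : Matrix (Fin m) (Fin m) ℝ} (hA : Aᵀ = A) (hB : Bᵀ = B) :
    s4 (fun a b c d => sg A a b c d * sg B a b c d)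
      = 3 * ((A * B).trace ^ 2 + 2 * (A * B * (A * B)).trace) := by
  have sA : ∀ a b, A a b = A b a := fun a b => by rw [← Matrix.transpose_apply A b a, hA]
  have sB : ∀ a b, B a b = B b a := fun a b => by rw [← Matrix.transpose_apply B b a, hB]
  have t1 : s4 (fun a b c d => A a b * A c d * (B a b * B c d)) = (A * B).trace ^ 2 := by
    have : (A * B).trace = ∑ a, ∑ b, A a b * B a b := by
      simp only [Matrix.trace, Matrix.diag, Matrix.mul_apply]
      exact sum_congr rfl fun a _ => sum_congr rfl fun b _ => by rw [sB b a]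
    rw [this, sq]
    simp only [sum_mul]
    simp only [mul_sum]
    exact s4_congr fun a b c d => by ring
  have t2 : s4 (fun a b c d => A a b * A c d * (B a c * B b d)) = (A * B * (A * B)).trace := by
    have : (A * B * (A * B)).trace = s4 fun a x p q => A a p * B p x * (A x q * B q a) := by
      simp only [Matrix.trace, Matrix.diag, Matrix.mul_apply]
      simp only [sum_mul]
      simp only [mul_sum]
      rfl
    rw [this, s4_bc (fun a x p q => A a p * B p x * (A x q * B q a)),
      s4_cd (fun a b c d => A a b * B b c * (A c d * B d a))]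
    exact s4_congr fun a b c d => by rw [sA d c, sB c a]; ring
  have u2 : s4 (fun a b c d => A a b * A c d * (B a d * B b c)) = (A * B * (A * B)).trace := by
    rw [s4_cd, ← t2]; exact s4_congr fun a b c d => by rw [sA d c]
  have u3 : s4 (fun a b c d => A a c * A b d * (B a b * B c d)) = (A * B * (A * B)).trace := by
    rw [s4_bc, ← t2]
  have u4 : s4 (fun a b c d => A a c * A b d * (B a c * B b d)) = (A * B).trace ^ 2 := by
    rw [s4_bc, ← t1]
  have u5 : s4 (fun a b c d => A a c * A b d * (B a d * B b c)) = (A * B * (A * B)).trace := by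
    rw [s4_bc, ← u2]; exact s4_congr fun a b c d => by rw [sB c b]
  have u6 : s4 (fun a b c d => A a d * A b c * (B a b * B c d)) = (A * B * (A * B)).trace := by
    rw [s4_cd, ← u3]; exact s4_congr fun a b c d => by rw [sB d c]
  have u7 : s4 (fun a b c d => A a d * A b c * (B a c * B b d)) = (A * B * (A * B)).trace := by
    rw [s4_cd, ← u5]
  have u8 : s4 (fun a b c d => A a d * A b c * (B a d * B b c)) = (A * B).trace ^ 2 := by
    rw [s4_cd, ← u4]
  simp only [sg, add_mul, mul_add, s4_add]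
  rw [t1, t2, u2, u3, u4, u5, u6, u7, u8]; ring

lemma Hyp.tr_shift (h : Hyp P lam) (g : ℝ) (i j : Fin v) (t : ℝ)
    (ht : t = if i = j then 1 else lam) :
    ((P i - g • 1) * (P j - g • 1)).trace = 3 * t - 6 * g + g ^ 2 * m ∧
    ((P i - g • 1) * (P j - g • 1) * ((P i - g • 1) * (P j - g • 1))).trace
      = 3 * t ^ 2 + 6 * g ^ 2 + m * g ^ 4 - 12 * g * t + 12 * g ^ 2 * t - 12 * g ^ 3 := by
  have e1 : (P i * P j).trace = 3 * t := by
    rw [h.tr_mul, ht]; split_ifs <;> ring
  have e1' : (P j * P i).trace = 3 * t := by rw [trace_mul_comm, e1]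
  have e0 : P i * P j * P i = t • P i := by
    rw [ht]; split_ifs with e
    · subst e; rw [h.idem, h.idem, one_smul]
    · exact h.iso i j e
  have e2 : P i * (P j * (P i * P j)) = t • (P i * P j) := by
    rw [← Matrix.mul_assoc, ← Matrix.mul_assoc, e0, Matrix.smul_mul]
  have e3 : P i * (P j * P i) = t • P i := by rw [← Matrix.mul_assoc, e0]
  have e4 : P i * (P i * P j) = P i * P j := by rw [← Matrix.mul_assoc, h.idem]
  have e6 : (P j * (P i * P j)).trace = 3 * t := by
    rw [trace_mul_comm, Matrix.mul_assoc, h.idem, e1]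
  constructor
  · simp only [Matrix.sub_mul, Matrix.mul_sub, Matrix.smul_mul, Matrix.mul_smul, Matrix.mul_one,
      Matrix.one_mul, Matrix.trace_sub, Matrix.trace_smul, smul_eq_mul, trace_one,
      Fintype.card_fin, e1, h.tr]
    ring
  · simp only [Matrix.sub_mul, Matrix.mul_sub, Matrix.smul_mul, Matrix.mul_smul, Matrix.mul_one,
      Matrix.one_mul, Matrix.mul_assoc, e2, e3, e4, e6, h.idem, Matrix.trace_sub,
      Matrix.trace_smul, smul_eq_mul, trace_one, Fintype.card_fin, e1, e1', h.tr]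
    ring

lemma Hyp.tr_shift1 (h : Hyp P lam) (g : ℝ) (i : Fin v) :
    (P i - g • (1 : Matrix (Fin m) (Fin m) ℝ)).trace = 3 - g * m ∧
    ((P i - g • 1) * (P i - g • 1)).trace = 3 - 6 * g + g ^ 2 * m := by
  refine ⟨?_, ?_⟩
  · rw [trace_sub, trace_smul, trace_one, h.tr, Fintype.card_fin, smul_eq_mul]
  · have := (h.tr_shift g i i 1 (by simp)).1
    rw [this]; ring

lemma Hyp.lp (h : Hyp P lam) (hv : 1 ≤ v) :
    0 ≤ (((m : ℝ) + 2) * (m + 4) - 10 * (m + 2) + 15)
      + (v - 1) * ((m + 2) * (m + 4) * lam ^ 2 - 10 * (m + 2) * lam + 15) := by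
  set g : ℝ := 5 / (m + 4) with hg
  set δ : ℝ := g ^ 2 - 15 / ((m + 2) * (m + 4)) with hδ
  set A : Fin v → Matrix (Fin m) (Fin m) ℝ := fun i => P i - g • 1 with hA
  have hAs : ∀ i, (A i)ᵀ = A i := fun i => by
    simp only [hA]; rw [transpose_sub, transpose_smul, transpose_one, h.sym]
  set T : Fin v → Fin m → Fin m → Fin m → Fin m → ℝ :=
    fun i a b c d => sg (A i) a b c d - δ * sg 1 a b c d with hT
  have hm2 : ((m : ℝ) + 2) ≠ 0 := by positivity
  have hm4 : ((m : ℝ) + 4) ≠ 0 := by positivity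
  set F : ℝ → ℝ := fun t => 45 * (((m : ℝ) + 2) * (m + 4) * t ^ 2 - 10 * (m + 2) * t + 15)
    / ((m + 2) * (m + 4)) with hF
  have hij : ∀ i j, s4 (fun a b c d => T i a b c d * T j a b c d)
      = if i = j then F 1 else F lam := fun i j => by
    have e : ∀ a b c d, T i a b c d * T j a b c d = sg (A i) a b c d * sg (A j) a b c d
        + (-δ) * (sg (A i) a b c d * sg 1 a b c d) + (-δ) * (sg (A j) a b c d * sg 1 a b c d)
        + δ ^ 2 * (sg 1 a b c d * sg 1 a b c d) := fun a b c d => by simp only [hT]; ring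
    rw [s4_congr e, s4_add, s4_add, s4_add, s4_smul, s4_smul, s4_smul, s4_sg (hAs i) (hAs j),
      s4_sg (hAs i) transpose_one, s4_sg (hAs j) transpose_one,
      s4_sg transpose_one transpose_one]
    obtain ⟨t, ht⟩ : ∃ t, t = if i = j then 1 else lam := ⟨_, rfl⟩
    have hF' : (if i = j then F 1 else F lam) = F t := by rw [ht]; split_ifs <;> rfl
    rw [hF']
    simp only [hA, Matrix.mul_one, trace_one, Fintype.card_fin]
    rw [(h.tr_shift g i j t ht).1, (h.tr_shift g i j t ht).2, (h.tr_shift1 g i).1,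
      (h.tr_shift1 g i).2, (h.tr_shift1 g j).1, (h.tr_shift1 g j).2]
    simp only [hF, hδ, hg]
    field_simp
    ring
  have hn := s4_sq_nonneg fun a b c d => ∑ i, T i a b c d
  simp only [sum_mul_sum] at hn
  rw [s4_sum] at hn
  simp only [s4_sum, hij] at hn
  rw [sum_sum_ite] at hn
  have hv' : (1 : ℝ) ≤ v := by exact_mod_cast hv
  have h2 : 0 ≤ F lam * v + (F 1 - F lam) :=
    (mul_nonneg_iff_of_pos_left (by linarith)).1 hn
  have hp : (0 : ℝ) < ((m : ℝ) + 2) * (m + 4) / 45 := by positivity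
  have h3 := mul_nonneg hp.le h2
  have e : ((m : ℝ) + 2) * (m + 4) / 45 * (F lam * v + (F 1 - F lam))
      = (((m : ℝ) + 2) * (m + 4) - 10 * (m + 2) + 15)
      + (v - 1) * ((m + 2) * (m + 4) * lam ^ 2 - 10 * (m + 2) * lam + 15) := by
    simp only [hF]
    field_simp
    ring
  rwa [e] at h3

lemma Hyp.exists_eig (h : Hyp P lam) (hv : 1 ≤ v) :
    ∃ (y : Fin m → ℝ) (μ : ℝ), y ⬝ᵥ y = 1 ∧ (∑ i, P i) *ᵥ y = μ • y ∧
      lam * v + (1 - lam) ≤ μ := by
  set S := ∑ i, P i with hS
  set β : ℝ := lam * v + (1 - lam) with hβ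
  have hH : S.IsHermitian := by
    rw [Matrix.IsHermitian, conjTranspose_eq_transpose_of_trivial, hS, h.sum_sym]
  set e := hH.eigenvalues with he
  set b : Fin m → Fin m → ℝ := fun j => ⇑(hH.eigenvectorBasis j) with hb
  have hbe : ∀ j, S *ᵥ b j = e j • b j := fun j => hH.mulVec_eigenvectorBasis j
  have hb1 : ∀ j, b j ⬝ᵥ b j = 1 := fun j => by
    have := hH.eigenvectorBasis.orthonormal.1 j
    have h2 := EuclideanSpace.real_norm_sq_eq (hH.eigenvectorBasis j)
    rw [this] at h2
    simp only [dotProduct, hb, ← sq]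
    rw [← h2]; norm_num
  have hU : ∀ M : Matrix (Fin m) (Fin m) ℝ, M.trace = ∑ j, b j ⬝ᵥ (M *ᵥ b j) := fun M => by
    set U : Matrix (Fin m) (Fin m) ℝ := (hH.eigenvectorUnitary : Matrix (Fin m) (Fin m) ℝ) with hUd
    have h1 : U * star U = 1 := Unitary.coe_mul_star_self _
    have h2 : M.trace = (star U * (M * U)).trace := by
      rw [trace_mul_comm, Matrix.mul_assoc, h1, Matrix.mul_one]
    rw [h2]
    simp only [Matrix.trace, Matrix.diag, Matrix.mul_apply, dotProduct, mulVec, star_apply,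
      star_trivial, hUd, hH.eigenvectorUnitary_apply, hb]
  have ht1 : ∑ j, e j = 3 * v := by
    rw [← h.trace_sum, ← hS, hU]
    exact sum_congr rfl fun j _ => by rw [hbe, dotProduct_smul, hb1, smul_eq_mul, mul_one]
  have ht2 : ∑ j, e j ^ 2 = 3 * v * β := by
    rw [hβ, ← h.trace_sum_sq, ← hS, hU]
    exact sum_congr rfl fun j _ => by
      rw [← mulVec_mulVec, hbe, mulVec_smul, hbe, dotProduct_smul, dotProduct_smul, hb1]
      simp only [smul_eq_mul]; ring
  have he0 : ∀ j, 0 ≤ e j := fun j => by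
    have : e j = ∑ i, (P i *ᵥ b j) ⬝ᵥ (P i *ᵥ b j) := by
      have h3 : b j ⬝ᵥ (S *ᵥ b j) = e j := by
        rw [hbe, dotProduct_smul, hb1, smul_eq_mul, mul_one]
      rw [← h3, hS, sum_mulVec, dotProduct_sum]
      exact sum_congr rfl fun i _ => by
        rw [← dot_sym (h.sym i), mulVec_mulVec, h.idem]
    rw [this]
    exact sum_nonneg fun i _ => by simp only [dotProduct, ← sq]; positivity
  by_contra hc
  push Not at hc
  have hlt : ∀ j, e j < β := fun j => hc (b j) (e j) (hb1 j) (hbe j)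
  have hz : ∑ j, e j * (β - e j) = 0 := by
    have : ∀ j, e j * (β - e j) = β * e j - e j ^ 2 := fun j => by ring
    simp only [this, sum_sub_distrib, ← mul_sum, ht1, ht2]; ring
  rw [sum_eq_zero_iff_of_nonneg fun j _ => mul_nonneg (he0 j) (by linarith [hlt j])] at hz
  have hz' : ∀ j, e j = 0 := fun j => by
    rcases mul_eq_zero.1 (hz j (mem_univ j)) with h4 | h4
    · exact h4
    · linarith [hlt j]
  simp only [hz', sum_const_zero] at ht1
  have hv' : (1 : ℝ) ≤ v := by exact_mod_cast hv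
  linarith

end Pool.Agent.P.MP_c2263a_gt
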