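import Pool.Agent.P.MP_c2263a_gt.Core
import Pool.Agent.P.MP_c2263a_gt.Eig
import Pool.Agent.P.MP_c2263a_gt.LP

/-! The upper bound for matrices, and the passage from subspaces to matrices. -/

namespace Pool.Agent.P.MP_c2263a_gt

open Matrix Finset

variable {m v : ℕ} {P : Fin v → Matrix (Fin m) (Fin m) ℝ} {lam : ℝ}

lemma facts (m v l : ℝ) (hm : 12 ≤ m) (h1 : m * (m - 1) ≤ 6 * v) (h2 : 20 * m ≤ 6 * v)
    (hl : 7 * m + 8 ≤ l * ((m + 2) * (m + 4))) :
    5 ≤ v * l ^ 2 ∧ 15 * (m - 1) ≤ 16 * l * v := by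
  have hN : 0 < (m + 2) * (m + 4) := by positivity
  have hv : 0 < v := by linarith
  have hsq : (7 * m + 8) ^ 2 ≤ (l * ((m + 2) * (m + 4))) ^ 2 :=
    pow_le_pow_left₀ (by linarith) hl 2
  have e1 := mul_le_mul_of_nonneg_left hsq hv.le
  have e2 := mul_le_mul_of_nonneg_left hl hv.le
  have k : 5 * ((m + 2) * (m + 4)) ^ 2 ≤ v * (7 * m + 8) ^ 2 ∧
      15 * (m - 1) * ((m + 2) * (m + 4)) ≤ 16 * (v * (7 * m + 8)) := by
    have p1 : 0 ≤ (7 * m + 8) ^ 2 := sq_nonneg _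
    have p2 : 0 ≤ 7 * m + 8 := by linarith
    rcases le_total m 21 with h | h
    · have hx : 0 ≤ m - 12 := by linarith
      have hy : 0 ≤ 21 - m := by linarith
      have q1 := mul_le_mul_of_nonneg_right h2 p1
      have q2 := mul_le_mul_of_nonneg_right h2 p2
      constructor
      · nlinarith [mul_nonneg (pow_nonneg hx 0) (pow_nonneg hy 4),
          mul_nonneg (pow_nonneg hx 1) (pow_nonneg hy 3),
          mul_nonneg (pow_nonneg hx 2) (pow_nonneg hy 2),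
          mul_nonneg (pow_nonneg hx 3) (pow_nonneg hy 1),
          mul_nonneg (pow_nonneg hx 4) (pow_nonneg hy 0)]
      · nlinarith [mul_nonneg (pow_nonneg hx 0) (pow_nonneg hy 3),
          mul_nonneg (pow_nonneg hx 1) (pow_nonneg hy 2),
          mul_nonneg (pow_nonneg hx 2) (pow_nonneg hy 1),
          mul_nonneg (pow_nonneg hx 3) (pow_nonneg hy 0)]
    · have hx : 0 ≤ m - 21 := by linarith
      have q1 := mul_le_mul_of_nonneg_right h1 p1
      have q2 := mul_le_mul_of_nonneg_right h1 p2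
      constructor
      · nlinarith [pow_nonneg hx 2, pow_nonneg hx 3, pow_nonneg hx 4]
      · nlinarith [pow_nonneg hx 2, pow_nonneg hx 3]
  constructor
  · have : 5 * ((m + 2) * (m + 4)) ^ 2 ≤ v * l ^ 2 * ((m + 2) * (m + 4)) ^ 2 := by
      nlinarith [k.1]
    exact le_of_mul_le_mul_right this (by positivity)
  · have : 15 * (m - 1) * ((m + 2) * (m + 4)) ≤ 16 * l * v * ((m + 2) * (m + 4)) := by
      nlinarith [k.2]
    exact le_of_mul_le_mul_right this hN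

theorem Hyp.bound (h : Hyp P lam) (h0 : 0 < lam) (h1 : lam < 1) (hm : 12 ≤ m) :
    6 * v ≤ m * max (m - 1) 20 := by
  by_contra hc
  push Not at hc
  have n1 : m * (m - 1) < 6 * v := lt_of_le_of_lt (Nat.mul_le_mul_left m (le_max_left _ _)) hc
  have n2 : m * 20 < 6 * v := lt_of_le_of_lt (Nat.mul_le_mul_left m (le_max_right _ _)) hc
  have n3 : 41 ≤ v := by omega
  have hv : 1 ≤ v := by omega
  have hm' : (12 : ℝ) ≤ m := by exact_mod_cast hm
  have r1 : (m : ℝ) * (m - 1) < 6 * v := by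
    have : ((m * (m - 1) : ℕ) : ℝ) < ((6 * v : ℕ) : ℝ) := by exact_mod_cast n1
    rwa [Nat.cast_mul, Nat.cast_mul, Nat.cast_sub (by omega), Nat.cast_one, Nat.cast_ofNat] at this
  have r2 : 20 * (m : ℝ) < 6 * v := by
    have : ((m * 20 : ℕ) : ℝ) < ((6 * v : ℕ) : ℝ) := by exact_mod_cast n2
    push_cast at this; linarith
  have r3 : (41 : ℝ) ≤ v := by exact_mod_cast n3
  rcases le_total (lam * (m + 2)) 3 with c1 | c1
  · have hr := h.rel hv (by omega)
    have e1 := mul_le_mul_of_nonneg_right hr (by linarith : (0 : ℝ) ≤ m + 2)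
    have e2 := mul_le_mul_of_nonneg_left c1
      (mul_nonneg (by linarith : (0 : ℝ) ≤ m) (by linarith : (0 : ℝ) ≤ v - 1))
    nlinarith
  rcases le_total (lam * ((m + 2) * (m + 4))) (7 * m + 8) with c2 | c2
  · have hl := h.lp hv
    have e1 := mul_nonneg (by linarith : (0 : ℝ) ≤ m + 2) hl
    have e2 : (lam * (m + 2) - 3) * (lam * ((m + 2) * (m + 4)) - (7 * m + 8)) ≤ 0 :=
      mul_nonpos_of_nonneg_of_nonpos (by linarith) (by linarith)
    have e3 := mul_le_mul_of_nonneg_left e2 (by linarith : (0 : ℝ) ≤ v - 1)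
    have e4 : 0 ≤ ((m : ℝ) - 1) * (m * (m - 1) - 6 * v) := by nlinarith
    have e5 : ((m : ℝ) - 1) * (m * (m - 1) - 6 * v) < 0 :=
      mul_neg_of_pos_of_neg (by linarith) (by linarith)
    linarith
  obtain ⟨y, μ, hy1, hy, hμ⟩ := h.exists_eig hv
  obtain ⟨F1, F3⟩ := facts m v lam hm' r1.le r2.le c2
  set a := Real.sqrt lam with ha
  have ha0 : 0 < a := Real.sqrt_pos.2 h0
  have hl : lam = a ^ 2 := (Real.sq_sqrt h0.le).symm
  have ha1 : a < 1 := by
    by_contra hh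
    push Not at hh
    nlinarith
  set β : ℝ := lam * v + (1 - lam) with hβ
  have hβ0 : 0 < β := by rw [hβ]; nlinarith
  have hμ0 : 0 < μ := lt_of_lt_of_le hβ0 hμ
  have hD := h.cubic h0 h1 hv hy1 hy
  have hE := h.sigma h0 h1 hv hy1 hy
  have hE2 := h.perp h0 h1 hv (by omega) hy1 hy
  have hup := h.mu_le ha0 hl hy1 hy hμ0
  rw [← hβ] at hD hE
  set σ := ∑ i, (y ⬝ᵥ (P i *ᵥ y)) ^ 2 with hσ
  set ν := a * μ / β with hν
  have hνβ : ν * β = a * μ := by rw [hν]; field_simp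
  refine core a v (m - 1) ν (μ - σ) β ha0 ha1 ?_ (by linarith) ?_ r3 (by linarith)
    (by rw [hβ, hl]) ?_ ?_ ?_ ?_ ?_
  · rw [hl] at F1; linarith [show (a ^ 2) ^ 2 = a ^ 4 by ring]
  · rw [← hl]; exact F3
  · rw [hν, le_div_iff₀ hβ0]; exact mul_le_mul_of_nonneg_left hμ ha0.le
  · rw [hν, div_le_one hβ0, hβ, hl]
    have := mul_le_mul_of_nonneg_left hup ha0.le
    nlinarith
  · have e := mul_le_mul_of_nonneg_left hD ha0.le
    have e2 : β * (ν * (β ^ 2 + 7 / 2 * (1 - a ^ 2) * β) - ν ^ 3 * β ^ 2)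
        = (ν * β) * (β ^ 2 + 7 / 2 * (1 - a ^ 2) * β) - (ν * β) ^ 3 := by ring
    have e3 : β * (ν * (β ^ 2 + 7 / 2 * (1 - a ^ 2) * β) - ν ^ 3 * β ^ 2)
        ≤ β * (9 / 2 * (1 - a ^ 2) * v * a) := by
      rw [e2, hνβ]; rw [hl] at e; nlinarith
    exact le_of_mul_le_mul_left e3 hβ0
  · have e := mul_le_mul_of_nonneg_left hE ha0.le
    have e2 : β * (ν * β * (1 - a * ν) - 3 * (1 - a ^ 2) * a)
        = β * (ν * β) - a * (ν * β) ^ 2 - 3 * (1 - a ^ 2) * a * β := by ring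
    have e3 : β * (ν * β * (1 - a * ν) - 3 * (1 - a ^ 2) * a) ≤ β * (a * (μ - σ)) := by
      rw [e2, hνβ]; rw [hl] at e; nlinarith
    exact le_of_mul_le_mul_left e3 hβ0
  · rw [← hl]; exact hE2

end Pool.Agent.P.MP_c2263a_gt
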