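import Pool.Agent.P.MP_c2263a_gt.Poly

/-! The final real-number contradiction in the upper bound. -/

namespace Pool.Agent.P.MP_c2263a_gt

lemma lin41 {A C v : ℝ} (hA : 0 < A) (h : 0 < 41 * A + C) (hv : 41 ≤ v) : 0 < v * A + C := by
  nlinarith

lemma lin5 {A C v l : ℝ} (hA : 0 < A) (hl : 0 < l) (h : 0 < 5 * A + l * C) (hv : 5 ≤ v * l) :
    0 < v * A + C := by
  have h1 : 0 < l * (v * A + C) := by nlinarith
  exact pos_of_mul_pos_left' h1 hl
where pos_of_mul_pos_left' {x y : ℝ} (h : 0 < x * y) (hx : 0 < x) : 0 < y :=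
  (pos_iff_pos_of_mul_pos h).1 hx

lemma nu_ge (a v ν β : ℝ) (ha0 : 0 < a) (ha1 : a < 1) (F1 : 5 ≤ v * a ^ 4) (F4 : 41 ≤ v)
    (hβ : β = a ^ 2 * v + (1 - a ^ 2)) (hν1 : a ≤ ν)
    (D : ν * (β ^ 2 + 7 / 2 * (1 - a ^ 2) * β) - ν ^ 3 * β ^ 2 ≤ 9 / 2 * (1 - a ^ 2) * v * a) :
    43 / 50 ≤ ν := by
  by_contra hc
  push Not at hc
  have hu : 0 < 1 - a ^ 2 := by nlinarith
  have hv : 0 < v := by linarith
  have hl : 0 < a ^ 2 := by positivity
  have hb1 : a ^ 2 * v ≤ β := by rw [hβ]; linarith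
  have hb0 : 0 < β := lt_of_lt_of_le (by positivity) hb1
  have hb2 : v * (5 + 2 * a ^ 2 * (1 - a ^ 2)) ≤ β ^ 2 := by
    have : β ^ 2 = v * (v * a ^ 4 + 2 * a ^ 2 * (1 - a ^ 2)) + (1 - a ^ 2) ^ 2 := by
      rw [hβ]; ring
    rw [this]
    nlinarith [mul_le_mul_of_nonneg_left F1 hv.le, sq_nonneg (1 - a ^ 2)]
  have hb3 : 5 * v ≤ β ^ 2 := by
    nlinarith [mul_pos hv (mul_pos hl hu)]
  set R := 9 / 2 * (1 - a ^ 2) * v * a with hR
  have fa : 0 < a * (β ^ 2 + 7 / 2 * (1 - a ^ 2) * β) - a ^ 3 * β ^ 2 - R := by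
    have : a * (β ^ 2 + 7 / 2 * (1 - a ^ 2) * β) - a ^ 3 * β ^ 2 - R
        = (1 - a ^ 2) * a * (β ^ 2 + 7 / 2 * β - 9 / 2 * v) := by rw [hR]; ring
    rw [this]
    have : 0 < β ^ 2 + 7 / 2 * β - 9 / 2 * v := by linarith
    positivity
  have hH : 0 < (43 / 50 : ℝ) * (1 - (43 / 50 : ℝ) ^ 2) * (5 + 2 * a ^ 2 * (1 - a ^ 2))
      + 7 / 2 * (43 / 50 : ℝ) * (1 - a ^ 2) * a ^ 2 - 9 / 2 * (1 - a ^ 2) * a := by
    rcases le_total a (3 / 10) with h | h
    · exact pH1 a ha0.le h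
    · rcases le_total a (3 / 5) with h' | h'
      · exact pH2 a h h'
      · exact pH3 a h' ha1.le
  have ft : 0 < (43 / 50 : ℝ) * (β ^ 2 + 7 / 2 * (1 - a ^ 2) * β) - (43 / 50 : ℝ) ^ 3 * β ^ 2
      - R := by
    have e1 := mul_pos hv hH
    have e2 := mul_le_mul_of_nonneg_left hb1 hu.le
    rw [hR]
    nlinarith
  have hat : a < 43 / 50 := lt_of_le_of_lt hν1 hc
  have key : (43 / 50 - a) * (ν * (β ^ 2 + 7 / 2 * (1 - a ^ 2) * β) - ν ^ 3 * β ^ 2 - R)
      = (43 / 50 - ν) * (a * (β ^ 2 + 7 / 2 * (1 - a ^ 2) * β) - a ^ 3 * β ^ 2 - R)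
        + (ν - a) * ((43 / 50 : ℝ) * (β ^ 2 + 7 / 2 * (1 - a ^ 2) * β)
          - (43 / 50 : ℝ) ^ 3 * β ^ 2 - R)
        + β ^ 2 * ((ν - a) * (43 / 50 - ν)) * ((43 / 50 - a) * (ν + a + 43 / 50)) := by ring
  have p1 : 0 < (43 / 50 - ν) * (a * (β ^ 2 + 7 / 2 * (1 - a ^ 2) * β) - a ^ 3 * β ^ 2 - R) :=
    mul_pos (by linarith) fa
  have p2 : 0 ≤ (ν - a) * ((43 / 50 : ℝ) * (β ^ 2 + 7 / 2 * (1 - a ^ 2) * β)
          - (43 / 50 : ℝ) ^ 3 * β ^ 2 - R) := mul_nonneg (by linarith) ft.le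
  have p3 : 0 ≤ β ^ 2 * ((ν - a) * (43 / 50 - ν)) * ((43 / 50 - a) * (ν + a + 43 / 50)) :=
    mul_nonneg (mul_nonneg (sq_nonneg _) (mul_nonneg (by linarith) (by linarith)))
      (mul_nonneg (by linarith) (by linarith))
  have p4 : (43 / 50 - a) * (ν * (β ^ 2 + 7 / 2 * (1 - a ^ 2) * β) - ν ^ 3 * β ^ 2 - R) ≤ 0 :=
    mul_nonpos_of_nonneg_of_nonpos (by linarith) (by linarith)
  linarith

lemma concave_G {a β ν L R : ℝ} (ha : 0 ≤ a) (hβ : 0 ≤ β) (hL : L ≤ ν) (h1 : ν ≤ 1)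
    (gL : R < L * β * (1 - a * L)) (g1 : R < β * (1 - a)) : R < ν * β * (1 - a * ν) := by
  rcases eq_or_lt_of_le (hL.trans h1) with h | h
  · have : ν = 1 := by linarith
    rw [this]; linarith
  · have key : (1 - L) * (ν * β * (1 - a * ν) - R)
        = (1 - ν) * (L * β * (1 - a * L) - R) + (ν - L) * (β * (1 - a) - R)
          + a * β * ((ν - L) * (1 - ν)) * (1 - L) := by ring
    have p3 : 0 ≤ a * β * ((ν - L) * (1 - ν)) * (1 - L) :=
      mul_nonneg (mul_nonneg (mul_nonneg ha hβ) (mul_nonneg (by linarith) (by linarith)))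
        (by linarith)
    have p1 : 0 ≤ (1 - ν) * (L * β * (1 - a * L) - R) := mul_nonneg (by linarith) (by linarith)
    have p2 : 0 ≤ (ν - L) * (β * (1 - a) - R) := mul_nonneg (by linarith) (by linarith)
    have hpos : 0 < (1 - ν) * (L * β * (1 - a * L) - R) + (ν - L) * (β * (1 - a) - R) := by
      rcases eq_or_lt_of_le h1 with e | e
      · have : 0 < (ν - L) * (β * (1 - a) - R) := mul_pos (by linarith) (by linarith)
        linarith
      · have : 0 < (1 - ν) * (L * β * (1 - a * L) - R) := mul_pos (by linarith) (by linarith)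
        linarith
    have : 0 < (1 - L) * (ν * β * (1 - a * ν) - R) := by linarith
    have := (pos_iff_pos_of_mul_pos this).1 (by linarith)
    linarith

lemma S_bar {u v M M' S : ℝ} (hu : 0 < u) (hv : 0 < v) (hM : 0 < M) (hMM : M ≤ M') (hS : 0 < S)
    (E2 : S ^ 2 * v ≤ u * M * (3 / 2 * S * v - 2 * S ^ 2)) :
    S * v ≤ u * M' * (3 / 2 * v - 2 * S) := by
  have h1 : S * (S * v) ≤ S * (u * M * (3 / 2 * v - 2 * S)) := by nlinarith
  have h2 : S * v ≤ u * M * (3 / 2 * v - 2 * S) := le_of_mul_le_mul_left h1 hS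
  have h3 : 0 < u * M * (3 / 2 * v - 2 * S) := lt_of_lt_of_le (mul_pos hS hv) h2
  have h4 : 0 < 3 / 2 * v - 2 * S := (pos_iff_pos_of_mul_pos h3).1 (mul_pos hu hM)
  have h5 : u * M * (3 / 2 * v - 2 * S) ≤ u * M' * (3 / 2 * v - 2 * S) :=
    mul_le_mul_of_nonneg_right (mul_le_mul_of_nonneg_left hMM hu.le) h4.le
  linarith

lemma lt_of_mul {x y D : ℝ} (hD : 0 < D) (h : x * D < y * D) : x < y :=
  lt_of_mul_lt_mul_right h hD.le

lemma core (a v M ν S β : ℝ) (ha0 : 0 < a) (ha1 : a < 1) (F1 : 5 ≤ v * a ^ 4)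
    (F2 : 10 * (M + 1) ≤ 3 * v) (F3 : 15 * M ≤ 16 * a ^ 2 * v) (F4 : 41 ≤ v) (hM : 0 < M)
    (hβ : β = a ^ 2 * v + (1 - a ^ 2)) (hν1 : a ≤ ν) (hν2 : ν ≤ 1)
    (D : ν * (β ^ 2 + 7 / 2 * (1 - a ^ 2) * β) - ν ^ 3 * β ^ 2 ≤ 9 / 2 * (1 - a ^ 2) * v * a)
    (E : ν * β * (1 - a * ν) - 3 * (1 - a ^ 2) * a ≤ a * S)
    (E2 : S ^ 2 * v ≤ (1 - a ^ 2) * M * (3 / 2 * S * v - 2 * S ^ 2)) : False := by
  have hν := nu_ge a v ν β ha0 ha1 F1 F4 hβ hν1 D
  have hu : 0 < 1 - a ^ 2 := by nlinarith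
  have hv : 0 < v := by linarith
  have hl : 0 < a ^ 2 := by positivity
  have hl4 : 0 < a ^ 4 := by positivity
  have hb0 : 0 < β := by rw [hβ]; positivity
  have h1a : 0 < 1 - a := by linarith
  have huf : 1 - a ^ 2 = (1 - a) * (1 + a) := by ring
  suffices h : 3 * (1 - a ^ 2) * a + a * S < ν * β * (1 - a * ν) by linarith
  rcases le_total a (13 / 25) with hs | hs
  · -- small case
    set Dd := 1 + 32 / 15 * ((1 - a ^ 2) * a ^ 2) with hDd
    have hD0 : 0 < Dd := by rw [hDd]; positivity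
    have hS : S * Dd ≤ 8 / 5 * (1 - a ^ 2) * (a ^ 2 * v) := by
      rcases le_or_gt S 0 with h0 | h0
      · have : S * Dd ≤ 0 := mul_nonpos_of_nonpos_of_nonneg h0 hD0.le
        have : 0 ≤ 8 / 5 * (1 - a ^ 2) * (a ^ 2 * v) := by positivity
        linarith
      · have h := S_bar hu hv hM (M' := 16 / 15 * a ^ 2 * v) (by linarith) h0 E2
        have h2 : v * (S * Dd) ≤ v * (8 / 5 * (1 - a ^ 2) * (a ^ 2 * v)) := by
          rw [hDd]; nlinarith
        exact le_of_mul_le_mul_left h2 hv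
    have hy : 5 ≤ a ^ 2 * v * a ^ 2 := by nlinarith
    have q1 := lin5 (pS1A a ha0.le hs) hl (pS1 a ha0.le hs) hy
    have q2 := lin5 (pStA a ha0.le hs) hl (pSt a ha0.le hs) hy
    rw [← hDd] at q1 q2
    have aS := mul_le_mul_of_nonneg_left hS ha0.le
    apply concave_G ha0.le hb0.le hν hν2
    · apply lt_of_mul hD0
      rw [hβ]
      nlinarith
    · apply lt_of_mul hD0
      have := mul_pos h1a q1
      rw [hβ]
      rw [huf] at *
      nlinarith
  · -- large case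
    set c := 1 + 3 / 5 * (1 - a ^ 2) with hc
    have hc0 : 0 < c := by rw [hc]; positivity
    have hS : S * c ≤ (1 - a ^ 2) * (9 / 20 * v - 3 / 2 + 9 / 10 * (1 - a ^ 2)) := by
      rcases le_or_gt S 0 with h0 | h0
      · have : S * c ≤ 0 := mul_nonpos_of_nonpos_of_nonneg h0 hc0.le
        have : 0 ≤ (1 - a ^ 2) * (9 / 20 * v - 3 / 2 + 9 / 10 * (1 - a ^ 2)) :=
          mul_nonneg hu.le (by linarith)
        linarith
      · have h := S_bar hu hv hM (M' := 3 / 10 * v - 1) (by linarith) h0 E2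
        have hu1 : 1 - a ^ 2 ≤ 1 := by linarith
        have h3 : S ≤ 9 / 20 * (1 - a ^ 2) * v := by
          by_contra hh
          push Not at hh
          have e1 : 9 / 20 * (1 - a ^ 2) * v * v < S * v := mul_lt_mul_of_pos_right hh hv
          have e2 : 0 ≤ (1 - a ^ 2) * (3 / 10 * v - 1) * S :=
            mul_nonneg (mul_nonneg hu.le (by linarith)) h0.le
          have e3 := mul_pos hu hv
          nlinarith
        have h4 := mul_le_mul_of_nonneg_left h3 hu.le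
        have h2 : v * (S * c) ≤ v * ((1 - a ^ 2) * (9 / 20 * v - 3 / 2
            + 9 / 10 * (1 - a ^ 2))) := by
          rw [hc]; nlinarith
        exact le_of_mul_le_mul_left h2 hv
    have aS := mul_le_mul_of_nonneg_left hS ha0.le
    have q1 : 0 < v * (a ^ 2 * c - 9 / 20 * (a * (1 + a))) + ((1 - a ^ 2) * c
        - a * (1 + a) * (3 * c - 3 / 2 + 9 / 10 * (1 - a ^ 2))) := by
      rcases le_total a (59 / 100) with h | h
      · exact lin5 (pL1A a hs ha1.le) hl4 (pL1a a hs h) F1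
      · exact lin41 (pL1A a hs ha1.le) (pL1b a h ha1.le) F4
    have g1 : 3 * (1 - a ^ 2) * a + a * S < β * (1 - a) := by
      apply lt_of_mul hc0
      have := mul_pos h1a q1
      rw [hβ]
      rw [huf] at *
      nlinarith
    rcases le_total a (43 / 50) with ht | ht
    · have q2 : 0 < v * ((43 / 50 : ℝ) * (1 - a * (43 / 50 : ℝ)) * a ^ 2 * c
          - 9 / 20 * (a * (1 - a ^ 2))) + (1 - a ^ 2) * ((43 / 50 : ℝ) * (1 - a * (43 / 50 : ℝ)) * c
            - a * (3 * c - 3 / 2 + 9 / 10 * (1 - a ^ 2))) := by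
        rcases le_total a (59 / 100) with h | h
        · exact lin5 (pLtA a hs ht) hl4 (pLta a hs h) F1
        · exact lin41 (pLtA a hs ht) (pLtb a h ht) F4
      apply concave_G ha0.le hb0.le hν hν2 _ g1
      apply lt_of_mul hc0
      rw [hβ]
      nlinarith
    · have q2 := lin41 (pLaA a ht ha1.le) (pLa a ht ha1.le) F4
      rw [← hc] at q2
      apply concave_G ha0.le hb0.le hν1 hν2 _ g1
      apply lt_of_mul hc0
      have := mul_pos (mul_pos ha0 hu) q2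
      rw [hβ]
      nlinarith

end Pool.Agent.P.MP_c2263a_gt
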