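import Pool.Agent.P.MP_c2263a_gt.Frames

/-! Exact coordinates, over the integers with a square root of five adjoined, of eighteen
equi-isoclinic 3-planes in dimension thirteen. -/

namespace Pool.Agent.P.MP_c2263a_gt

open Finset

/-- Weights of the thirteen coordinates. -/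
def wt : Fin 13 → ℤ√5 := ![⟨128, 0⟩, ⟨128, 0⟩, ⟨128, 0⟩, ⟨2, 0⟩, ⟨2, 0⟩, ⟨2, 0⟩, ⟨5, 1⟩, ⟨5, 1⟩, ⟨5, 1⟩, ⟨10, -2⟩, ⟨4, 0⟩, ⟨4, 0⟩, ⟨10, -2⟩]

/-- Coordinates of the frames. -/
def co : Fin 18 → Fin 3 → Fin 13 → ℤ√5 :=
  ![![![⟨0, 1⟩, ⟨0, 0⟩, ⟨0, 0⟩, ⟨0, 0⟩, ⟨0, 0⟩, ⟨0, 0⟩, ⟨0, 0⟩, ⟨0, 0⟩, ⟨0, 0⟩, ⟨0, 0⟩, ⟨0, 0⟩, ⟨0, 0⟩, ⟨0, 0⟩],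
      ![⟨0, 0⟩, ⟨0, 1⟩, ⟨0, 0⟩, ⟨0, 0⟩, ⟨0, 0⟩, ⟨0, 0⟩, ⟨0, 0⟩, ⟨0, 0⟩, ⟨0, 0⟩, ⟨0, 0⟩, ⟨0, 0⟩, ⟨0, 0⟩, ⟨0, 0⟩],
      ![⟨0, 0⟩, ⟨0, 0⟩, ⟨0, 1⟩, ⟨0, 0⟩, ⟨0, 0⟩, ⟨0, 0⟩, ⟨0, 0⟩, ⟨0, 0⟩, ⟨0, 0⟩, ⟨0, 0⟩, ⟨0, 0⟩, ⟨0, 0⟩, ⟨0, 0⟩]],
    ![![⟨1, 0⟩, ⟨0, 0⟩, ⟨0, 0⟩, ⟨1, 1⟩, ⟨0, -2⟩, ⟨5, -1⟩, ⟨-3, -1⟩, ⟨-3, 1⟩, ⟨0, -2⟩, ⟨0, 0⟩, ⟨2, -2⟩, ⟨-4, 0⟩, ⟨0, 0⟩],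
      ![⟨0, 0⟩, ⟨1, 0⟩, ⟨0, 0⟩, ⟨0, 2⟩, ⟨1, -1⟩, ⟨-5, -1⟩, ⟨3, -1⟩, ⟨2, 0⟩, ⟨1, -1⟩, ⟨-4, 0⟩, ⟨0, 0⟩, ⟨0, 0⟩, ⟨-2, -2⟩],
      ![⟨0, 0⟩, ⟨0, 0⟩, ⟨1, 0⟩, ⟨5, -1⟩, ⟨5, 1⟩, ⟨-4, 2⟩, ⟨0, -2⟩, ⟨-1, 1⟩, ⟨-3, 1⟩, ⟨0, 0⟩, ⟨4, 0⟩, ⟨2, 2⟩, ⟨0, 0⟩]],
    ![![⟨1, 0⟩, ⟨0, 0⟩, ⟨0, 0⟩, ⟨1, -1⟩, ⟨5, 1⟩, ⟨0, -2⟩, ⟨4, -2⟩, ⟨5, -1⟩, ⟨1, 1⟩, ⟨-3, -1⟩, ⟨2, 0⟩, ⟨1, 1⟩, ⟨2, 0⟩],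
      ![⟨0, 0⟩, ⟨1, 0⟩, ⟨0, 0⟩, ⟨5, 1⟩, ⟨-4, -2⟩, ⟨-5, 1⟩, ⟨5, -1⟩, ⟨-1, -1⟩, ⟨2, 0⟩, ⟨-1, -1⟩, ⟨-1, 1⟩, ⟨2, 0⟩, ⟨-1, 1⟩],
      ![⟨0, 0⟩, ⟨0, 0⟩, ⟨1, 0⟩, ⟨0, 2⟩, ⟨5, -1⟩, ⟨1, 1⟩, ⟨-1, -1⟩, ⟨-2, 0⟩, ⟨-1, 1⟩, ⟨0, -2⟩, ⟨-1, -1⟩, ⟨-3, -1⟩, ⟨-1, -1⟩]],
    ![![⟨1, 0⟩, ⟨0, 0⟩, ⟨0, 0⟩, ⟨-4, -4⟩, ⟨0, 0⟩, ⟨0, 0⟩, ⟨-4, 4⟩, ⟨0, 0⟩, ⟨0, 0⟩, ⟨0, 0⟩, ⟨0, 0⟩, ⟨0, 0⟩, ⟨0, 0⟩],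
      ![⟨0, 0⟩, ⟨1, 0⟩, ⟨0, 0⟩, ⟨0, 0⟩, ⟨-4, -4⟩, ⟨0, 0⟩, ⟨0, 0⟩, ⟨-4, 4⟩, ⟨0, 0⟩, ⟨0, 0⟩, ⟨0, 0⟩, ⟨0, 0⟩, ⟨0, 0⟩],
      ![⟨0, 0⟩, ⟨0, 0⟩, ⟨1, 0⟩, ⟨0, 0⟩, ⟨0, 0⟩, ⟨-4, -4⟩, ⟨0, 0⟩, ⟨0, 0⟩, ⟨-4, 4⟩, ⟨0, 0⟩, ⟨0, 0⟩, ⟨0, 0⟩, ⟨0, 0⟩]],
    ![![⟨1, 0⟩, ⟨0, 0⟩, ⟨0, 0⟩, ⟨16, 0⟩, ⟨0, 0⟩, ⟨0, 0⟩, ⟨0, 0⟩, ⟨0, 0⟩, ⟨0, 0⟩, ⟨0, 0⟩, ⟨0, 0⟩, ⟨0, 0⟩, ⟨0, 0⟩],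
      ![⟨0, 0⟩, ⟨1, 0⟩, ⟨0, 0⟩, ⟨0, 0⟩, ⟨16, 0⟩, ⟨0, 0⟩, ⟨0, 0⟩, ⟨0, 0⟩, ⟨0, 0⟩, ⟨0, 0⟩, ⟨0, 0⟩, ⟨0, 0⟩, ⟨0, 0⟩],
      ![⟨0, 0⟩, ⟨0, 0⟩, ⟨1, 0⟩, ⟨0, 0⟩, ⟨0, 0⟩, ⟨16, 0⟩, ⟨0, 0⟩, ⟨0, 0⟩, ⟨0, 0⟩, ⟨0, 0⟩, ⟨0, 0⟩, ⟨0, 0⟩, ⟨0, 0⟩]],
    ![![⟨1, 0⟩, ⟨0, 0⟩, ⟨0, 0⟩, ⟨1, 1⟩, ⟨0, 2⟩, ⟨5, -1⟩, ⟨-1, 1⟩, ⟨-1, -1⟩, ⟨-2, 0⟩, ⟨2, 0⟩, ⟨-1, -1⟩, ⟨2, -2⟩, ⟨-2, -2⟩],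
      ![⟨0, 0⟩, ⟨1, 0⟩, ⟨0, 0⟩, ⟨0, -2⟩, ⟨1, -1⟩, ⟨5, 1⟩, ⟨1, 1⟩, ⟨4, -2⟩, ⟨5, -1⟩, ⟨-3, -1⟩, ⟨0, -2⟩, ⟨0, 0⟩, ⟨0, 0⟩],
      ![⟨0, 0⟩, ⟨0, 0⟩, ⟨1, 0⟩, ⟨-5, 1⟩, ⟨5, 1⟩, ⟨-4, -2⟩, ⟨2, 0⟩, ⟨5, -1⟩, ⟨-1, -1⟩, ⟨-1, -1⟩, ⟨-5, 1⟩, ⟨0, 0⟩, ⟨0, 0⟩]],
    ![![⟨1, 0⟩, ⟨0, 0⟩, ⟨0, 0⟩, ⟨-4, 2⟩, ⟨-5, 1⟩, ⟨-5, -1⟩, ⟨3, -1⟩, ⟨0, -2⟩, ⟨-1, 1⟩, ⟨-2, 0⟩, ⟨-5, -1⟩, ⟨0, 0⟩, ⟨0, 0⟩],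
      ![⟨0, 0⟩, ⟨1, 0⟩, ⟨0, 0⟩, ⟨-5, 1⟩, ⟨1, 1⟩, ⟨0, -2⟩, ⟨0, -2⟩, ⟨3, 1⟩, ⟨3, -1⟩, ⟨1, -1⟩, ⟨0, -2⟩, ⟨0, 0⟩, ⟨0, 0⟩],
      ![⟨0, 0⟩, ⟨0, 0⟩, ⟨1, 0⟩, ⟨5, 1⟩, ⟨0, 2⟩, ⟨1, -1⟩, ⟨1, -1⟩, ⟨-3, 1⟩, ⟨-2, 0⟩, ⟨1, 1⟩, ⟨1, -1⟩, ⟨-2, -2⟩, ⟨4, 0⟩]],
    ![![⟨1, 0⟩, ⟨0, 0⟩, ⟨0, 0⟩, ⟨1, -1⟩, ⟨5, 1⟩, ⟨0, 2⟩, ⟨2, 0⟩, ⟨-1, 1⟩, ⟨3, -1⟩, ⟨-1, 1⟩, ⟨0, 2⟩, ⟨0, 2⟩, ⟨-3, -1⟩],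
      ![⟨0, 0⟩, ⟨1, 0⟩, ⟨0, 0⟩, ⟨-5, -1⟩, ⟨-4, 2⟩, ⟨-5, 1⟩, ⟨1, -1⟩, ⟨-3, 1⟩, ⟨0, 2⟩, ⟨-1, -1⟩, ⟨-1, 1⟩, ⟨-3, -1⟩, ⟨-1, -1⟩],
      ![⟨0, 0⟩, ⟨0, 0⟩, ⟨1, 0⟩, ⟨0, -2⟩, ⟨-5, 1⟩, ⟨1, 1⟩, ⟨-3, 1⟩, ⟨0, 2⟩, ⟨-3, -1⟩, ⟨-2, 0⟩, ⟨3, -1⟩, ⟨-1, -1⟩, ⟨-2, 0⟩]],
    ![![⟨1, 0⟩, ⟨0, 0⟩, ⟨0, 0⟩, ⟨1, 1⟩, ⟨0, -2⟩, ⟨5, -1⟩, ⟨3, 1⟩, ⟨3, -1⟩, ⟨0, 2⟩, ⟨2, 0⟩, ⟨-1, -1⟩, ⟨2, 0⟩, ⟨-1, 1⟩],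
      ![⟨0, 0⟩, ⟨1, 0⟩, ⟨0, 0⟩, ⟨0, 2⟩, ⟨1, -1⟩, ⟨-5, -1⟩, ⟨-3, 1⟩, ⟨-2, 0⟩, ⟨-1, 1⟩, ⟨3, 1⟩, ⟨4, -2⟩, ⟨-3, -1⟩, ⟨-1, -1⟩],
      ![⟨0, 0⟩, ⟨0, 0⟩, ⟨1, 0⟩, ⟨5, -1⟩, ⟨5, 1⟩, ⟨-4, 2⟩, ⟨0, 2⟩, ⟨1, -1⟩, ⟨3, -1⟩, ⟨-1, -1⟩, ⟨3, 1⟩, ⟨-1, -1⟩, ⟨-2, 0⟩]],
    ![![⟨1, 0⟩, ⟨0, 0⟩, ⟨0, 0⟩, ⟨-4, -2⟩, ⟨5, -1⟩, ⟨5, 1⟩, ⟨-1, -1⟩, ⟨-2, 0⟩, ⟨5, -1⟩, ⟨1, -1⟩, ⟨-2, 0⟩, ⟨4, 0⟩, ⟨0, 0⟩],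
      ![⟨0, 0⟩, ⟨1, 0⟩, ⟨0, 0⟩, ⟨-5, 1⟩, ⟨1, 1⟩, ⟨0, -2⟩, ⟨2, 0⟩, ⟨-1, 1⟩, ⟨1, 1⟩, ⟨1, 1⟩, ⟨-5, 1⟩, ⟨0, 0⟩, ⟨2, 2⟩],
      ![⟨0, 0⟩, ⟨0, 0⟩, ⟨1, 0⟩, ⟨5, 1⟩, ⟨0, 2⟩, ⟨1, -1⟩, ⟨5, -1⟩, ⟨-1, -1⟩, ⟨4, -2⟩, ⟨-2, 0⟩, ⟨-1, -1⟩, ⟨2, 2⟩, ⟨0, 0⟩]],
    ![![⟨1, 0⟩, ⟨0, 0⟩, ⟨0, 0⟩, ⟨1, 1⟩, ⟨0, 2⟩, ⟨-5, 1⟩, ⟨-3, -1⟩, ⟨3, -1⟩, ⟨0, 2⟩, ⟨4, 0⟩, ⟨0, 0⟩, ⟨0, 0⟩, ⟨0, 0⟩],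
      ![⟨0, 0⟩, ⟨1, 0⟩, ⟨0, 0⟩, ⟨0, -2⟩, ⟨1, -1⟩, ⟨-5, -1⟩, ⟨-3, 1⟩, ⟨2, 0⟩, ⟨1, -1⟩, ⟨0, 0⟩, ⟨0, 4⟩, ⟨0, 0⟩, ⟨0, 0⟩],
      ![⟨0, 0⟩, ⟨0, 0⟩, ⟨1, 0⟩, ⟨-5, 1⟩, ⟨5, 1⟩, ⟨-4, 2⟩, ⟨0, 2⟩, ⟨-1, 1⟩, ⟨-3, 1⟩, ⟨2, 2⟩, ⟨0, 0⟩, ⟨0, 0⟩, ⟨0, 0⟩]],
    ![![⟨1, 0⟩, ⟨0, 0⟩, ⟨0, 0⟩, ⟨-4, 2⟩, ⟨5, -1⟩, ⟨-5, -1⟩, ⟨-3, 1⟩, ⟨0, -2⟩, ⟨1, -1⟩, ⟨-1, -1⟩, ⟨3, 1⟩, ⟨-1, 1⟩, ⟨-1, -1⟩],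
      ![⟨0, 0⟩, ⟨1, 0⟩, ⟨0, 0⟩, ⟨5, -1⟩, ⟨1, 1⟩, ⟨0, 2⟩, ⟨0, -2⟩, ⟨-3, -1⟩, ⟨3, -1⟩, ⟨2, 0⟩, ⟨-1, -1⟩, ⟨-3, 1⟩, ⟨2, 0⟩],
      ![⟨0, 0⟩, ⟨0, 0⟩, ⟨1, 0⟩, ⟨5, 1⟩, ⟨0, -2⟩, ⟨1, -1⟩, ⟨-1, 1⟩, ⟨-3, 1⟩, ⟨2, 0⟩, ⟨3, 1⟩, ⟨0, 2⟩, ⟨0, 2⟩, ⟨-1, 1⟩]],
    ![![⟨1, 0⟩, ⟨0, 0⟩, ⟨0, 0⟩, ⟨-4, 2⟩, ⟨5, -1⟩, ⟨-5, -1⟩, ⟨3, -1⟩, ⟨0, 2⟩, ⟨-1, 1⟩, ⟨0, 0⟩, ⟨0, 0⟩, ⟨-5, -1⟩, ⟨-2, 0⟩],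
      ![⟨0, 0⟩, ⟨1, 0⟩, ⟨0, 0⟩, ⟨5, -1⟩, ⟨1, 1⟩, ⟨0, 2⟩, ⟨0, 2⟩, ⟨3, 1⟩, ⟨-3, 1⟩, ⟨0, 0⟩, ⟨0, 0⟩, ⟨0, 2⟩, ⟨-1, 1⟩],
      ![⟨0, 0⟩, ⟨0, 0⟩, ⟨1, 0⟩, ⟨5, 1⟩, ⟨0, -2⟩, ⟨1, -1⟩, ⟨1, -1⟩, ⟨3, -1⟩, ⟨-2, 0⟩, ⟨-4, 0⟩, ⟨2, 2⟩, ⟨1, -1⟩, ⟨1, 1⟩]],
    ![![⟨1, 0⟩, ⟨0, 0⟩, ⟨0, 0⟩, ⟨1, -1⟩, ⟨-5, -1⟩, ⟨0, 2⟩, ⟨2, 0⟩, ⟨1, -1⟩, ⟨3, -1⟩, ⟨-3, -1⟩, ⟨0, 2⟩, ⟨0, -2⟩, ⟨1, -1⟩],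
      ![⟨0, 0⟩, ⟨1, 0⟩, ⟨0, 0⟩, ⟨5, 1⟩, ⟨-4, 2⟩, ⟨5, -1⟩, ⟨-1, 1⟩, ⟨-3, 1⟩, ⟨0, -2⟩, ⟨1, 1⟩, ⟨3, 1⟩, ⟨-1, 1⟩, ⟨-1, -1⟩],
      ![⟨0, 0⟩, ⟨0, 0⟩, ⟨1, 0⟩, ⟨0, -2⟩, ⟨5, -1⟩, ⟨1, 1⟩, ⟨-3, 1⟩, ⟨0, -2⟩, ⟨-3, -1⟩, ⟨-2, 0⟩, ⟨-1, -1⟩, ⟨-3, 1⟩, ⟨2, 0⟩]],
    ![![⟨1, 0⟩, ⟨0, 0⟩, ⟨0, 0⟩, ⟨1, 1⟩, ⟨0, -2⟩, ⟨5, -1⟩, ⟨-1, 1⟩, ⟨1, 1⟩, ⟨-2, 0⟩, ⟨2, 2⟩, ⟨-2, 2⟩, ⟨-1, -1⟩, ⟨2, 0⟩],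
      ![⟨0, 0⟩, ⟨1, 0⟩, ⟨0, 0⟩, ⟨0, 2⟩, ⟨1, -1⟩, ⟨-5, -1⟩, ⟨-1, -1⟩, ⟨4, -2⟩, ⟨-5, 1⟩, ⟨0, 0⟩, ⟨0, 0⟩, ⟨0, 2⟩, ⟨3, 1⟩],
      ![⟨0, 0⟩, ⟨0, 0⟩, ⟨1, 0⟩, ⟨-5, 1⟩, ⟨-5, -1⟩, ⟨-4, -2⟩, ⟨2, 0⟩, ⟨-5, 1⟩, ⟨-1, -1⟩, ⟨0, 0⟩, ⟨0, 0⟩, ⟨-5, 1⟩, ⟨-1, -1⟩]],
    ![![⟨1, 0⟩, ⟨0, 0⟩, ⟨0, 0⟩, ⟨1, -1⟩, ⟨-5, -1⟩, ⟨0, 2⟩, ⟨-2, 0⟩, ⟨-1, 1⟩, ⟨-3, 1⟩, ⟨0, 0⟩, ⟨2, 2⟩, ⟨6, 0⟩, ⟨-1, 1⟩],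
      ![⟨0, 0⟩, ⟨1, 0⟩, ⟨0, 0⟩, ⟨5, 1⟩, ⟨-4, 2⟩, ⟨5, -1⟩, ⟨1, -1⟩, ⟨3, -1⟩, ⟨0, 2⟩, ⟨0, 0⟩, ⟨-4, 0⟩, ⟨3, 1⟩, ⟨-1, -1⟩],
      ![⟨0, 0⟩, ⟨0, 0⟩, ⟨1, 0⟩, ⟨0, -2⟩, ⟨5, -1⟩, ⟨1, 1⟩, ⟨3, -1⟩, ⟨0, 2⟩, ⟨3, 1⟩, ⟨0, 0⟩, ⟨-2, 2⟩, ⟨-1, -1⟩, ⟨2, 0⟩]],
    ![![⟨1, 0⟩, ⟨0, 0⟩, ⟨0, 0⟩, ⟨1, -1⟩, ⟨-5, -1⟩, ⟨0, -2⟩, ⟨4, -2⟩, ⟨-5, 1⟩, ⟨1, 1⟩, ⟨2, 0⟩, ⟨1, 1⟩, ⟨-2, 0⟩, ⟨3, 1⟩],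
      ![⟨0, 0⟩, ⟨1, 0⟩, ⟨0, 0⟩, ⟨-5, -1⟩, ⟨-4, -2⟩, ⟨5, -1⟩, ⟨-5, 1⟩, ⟨-1, -1⟩, ⟨-2, 0⟩, ⟨1, -1⟩, ⟨-2, 0⟩, ⟨-1, 1⟩, ⟨-1, -1⟩],
      ![⟨0, 0⟩, ⟨0, 0⟩, ⟨1, 0⟩, ⟨0, 2⟩, ⟨-5, 1⟩, ⟨1, 1⟩, ⟨-1, -1⟩, ⟨2, 0⟩, ⟨-1, 1⟩, ⟨-1, -1⟩, ⟨-3, -1⟩, ⟨1, 1⟩, ⟨0, 2⟩]],
    ![![⟨1, 0⟩, ⟨0, 0⟩, ⟨0, 0⟩, ⟨1, -1⟩, ⟨5, 1⟩, ⟨0, 2⟩, ⟨-2, 0⟩, ⟨1, -1⟩, ⟨-3, 1⟩, ⟨-1, 1⟩, ⟨6, 0⟩, ⟨-2, -2⟩, ⟨0, 0⟩],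
      ![⟨0, 0⟩, ⟨1, 0⟩, ⟨0, 0⟩, ⟨-5, -1⟩, ⟨-4, 2⟩, ⟨-5, 1⟩, ⟨-1, 1⟩, ⟨3, -1⟩, ⟨0, -2⟩, ⟨1, 1⟩, ⟨-3, -1⟩, ⟨-4, 0⟩, ⟨0, 0⟩],
      ![⟨0, 0⟩, ⟨0, 0⟩, ⟨1, 0⟩, ⟨0, -2⟩, ⟨-5, 1⟩, ⟨1, 1⟩, ⟨3, -1⟩, ⟨0, -2⟩, ⟨3, 1⟩, ⟨2, 0⟩, ⟨-1, -1⟩, ⟨2, -2⟩, ⟨0, 0⟩]]]

/-- Scaled Gram matrix. -/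
def gr (i : Fin 18) (a : Fin 3) (j : Fin 18) (b : Fin 3) : ℤ√5 :=
  ∑ k, wt k * (co i a k * co j b k)

lemma gr_diag : ∀ i a b, gr i a i b = if a = b then 640 else 0 := by decide +kernel

lemma gr_off : ∀ i j, i ≠ j → ∀ a b,
    ∑ e, gr i a j e * gr i b j e = if a = b then 81920 else 0 := by decide +kernel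

lemma wt_nonneg (k : Fin 13) : 0 ≤ Zsqrtd.toReal (by norm_num : (0 : ℤ) ≤ 5) (wt k) := by
  have h1 : Real.sqrt 5 ≤ 3 := Real.sqrt_le_iff.2 ⟨by norm_num, by norm_num⟩
  have h0 : 0 ≤ Real.sqrt 5 := Real.sqrt_nonneg 5
  fin_cases k <;> simp [wt, Zsqrtd.toReal_apply] <;> linarith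

theorem eighteen (m : ℕ) (hm : 13 ≤ m) :
    ∃ U : Fin 18 → Submodule ℝ (EuclideanSpace ℝ (Fin m)), Function.Injective U ∧
      (∀ i, Module.finrank ℝ (U i) = 3) ∧
      ∀ i j, i ≠ j → ∀ u ∈ U i, ‖(U j).starProjection u‖ ^ 2 = 1 / 5 * ‖u‖ ^ 2 := by
  set φ := Zsqrtd.toReal (by norm_num : (0 : ℤ) ≤ 5) with hφ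
  have key : ∀ i a j b,
      inner ℝ (pad m fun k => Real.sqrt (φ (wt k) / 640) * φ (co i a k))
        (pad m fun k => Real.sqrt (φ (wt k) / 640) * φ (co j b k)) = φ (gr i a j b) / 640 := by
    intro i a j b
    rw [inner_pad hm, gr, map_sum, sum_div]
    refine sum_congr rfl fun k _ => ?_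
    have := Real.mul_self_sqrt (div_nonneg (wt_nonneg k) (by norm_num : (0 : ℝ) ≤ 640))
    rw [map_mul, map_mul, mul_mul_mul_comm, this]
    ring
  refine of_frames (fun i a => pad m fun k => Real.sqrt (φ (wt k) / 640) * φ (co i a k)) (1 / 5)
    (by norm_num) (fun i a b => ?_) (fun i j e a b => ?_)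
  · rw [key, gr_diag]
    split_ifs
    · rw [map_ofNat]; norm_num
    · rw [map_zero, zero_div]
  · simp only [key]
    have h := congrArg φ (gr_off i j e a b)
    rw [map_sum] at h
    have : ∀ f, φ (gr i a j f) / 640 * (φ (gr i b j f) / 640)
        = φ (gr i a j f * gr i b j f) / 409600 := fun f => by rw [map_mul]; ring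
    simp only [this]
    rw [← sum_div, h]
    split_ifs
    · rw [map_ofNat]; norm_num
    · rw [map_zero, zero_div]

end Pool.Agent.P.MP_c2263a_gt
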