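import Mathlib

/-! From orthonormal frames with conformal cross Gram matrices to equi-isoclinic subspaces. -/

namespace Pool.Agent.P.MP_c2263a_gt

open Finset

lemma of_frames {E : Type} [NormedAddCommGroup E] [InnerProductSpace ℝ E]
    [FiniteDimensional ℝ E] {v : ℕ} (x : Fin v → Fin 3 → E) (lam : ℝ) (hl : lam < 1)
    (ho : ∀ i a b, inner ℝ (x i a) (x i b) = if a = b then 1 else 0)
    (hi : ∀ i j, i ≠ j → ∀ a b,
      ∑ e, inner ℝ (x i a) (x j e) * inner ℝ (x i b) (x j e) = if a = b then lam else 0) :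
    ∃ U : Fin v → Submodule ℝ E, Function.Injective U ∧ (∀ i, Module.finrank ℝ (U i) = 3) ∧
      ∀ i j, i ≠ j → ∀ u ∈ U i, ‖(U j).starProjection u‖ ^ 2 = lam * ‖u‖ ^ 2 := by
  have hon : ∀ i, Orthonormal ℝ (x i) := fun i => orthonormal_iff_ite.2 (ho i)
  have nrm : ∀ i (c : Fin 3 → ℝ), ‖∑ a, c a • x i a‖ ^ 2 = ∑ a, c a ^ 2 := fun i c => by
    rw [← real_inner_self_eq_norm_sq]
    simp only [sum_inner, inner_sum, real_inner_smul_left, real_inner_smul_right, ho]
    simp [sq]
  have proj : ∀ j u, (Submodule.span ℝ (Set.range (x j))).starProjection u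
      = ∑ e, inner ℝ u (x j e) • x j e := fun j u => by
    apply Submodule.eq_starProjection_of_mem_of_inner_eq_zero
    · exact Submodule.sum_mem _ fun e _ =>
        Submodule.smul_mem _ _ (Submodule.subset_span ⟨e, rfl⟩)
    · intro w hw
      obtain ⟨c, rfl⟩ := (Submodule.mem_span_range_iff_exists_fun ℝ).1 hw
      simp only [inner_sum, real_inner_smul_right, inner_sub_left, sum_inner,
        real_inner_smul_left, ho]
      simp
  have main : ∀ i j, i ≠ j → ∀ u ∈ Submodule.span ℝ (Set.range (x i)),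
      ‖(Submodule.span ℝ (Set.range (x j))).starProjection u‖ ^ 2 = lam * ‖u‖ ^ 2 := by
    intro i j e u hu
    obtain ⟨c, rfl⟩ := (Submodule.mem_span_range_iff_exists_fun ℝ).1 hu
    rw [proj, nrm, nrm]
    have : ∀ f, inner ℝ (∑ a, c a • x i a) (x j f) ^ 2
        = ∑ a, ∑ b, c a * c b * (inner ℝ (x i a) (x j f) * inner ℝ (x i b) (x j f)) := fun f => by
      simp only [sum_inner, real_inner_smul_left]
      rw [sq, sum_mul_sum]
      exact sum_congr rfl fun a _ => sum_congr rfl fun b _ => by ring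
    simp only [this]
    rw [sum_comm, mul_sum]
    refine sum_congr rfl fun a _ => ?_
    rw [sum_comm]
    simp only [← mul_sum, hi i j e]
    simp; ring
  refine ⟨fun i => Submodule.span ℝ (Set.range (x i)), fun i j hij => ?_, fun i => ?_, main⟩
  · by_contra e
    have hm : x i 0 ∈ Submodule.span ℝ (Set.range (x i)) := Submodule.subset_span ⟨0, rfl⟩
    have h1 := main i j e _ hm
    have hm' : x i 0 ∈ Submodule.span ℝ (Set.range (x j)) := by
      have : Submodule.span ℝ (Set.range (x i)) = Submodule.span ℝ (Set.range (x j)) := hij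
      rwa [← this]
    rw [Submodule.starProjection_eq_self_iff.2 hm', (hon i).1 0] at h1
    linarith
  · rw [finrank_span_eq_card (hon i).linearIndependent, Fintype.card_fin]

/-- Padding a vector of length `n` by zeros. -/
noncomputable def pad {n : ℕ} (m : ℕ) (f : Fin n → ℝ) : EuclideanSpace ℝ (Fin m) :=
  WithLp.toLp 2 fun c => if h : c.val < n then f ⟨c.val, h⟩ else 0

lemma inner_pad {n m : ℕ} (hm : n ≤ m) (f g : Fin n → ℝ) :
    inner ℝ (pad m f) (pad m g) = ∑ k, f k * g k := by
  obtain ⟨d, rfl⟩ := Nat.exists_eq_add_of_le hm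
  simp only [pad, PiLp.inner_apply, RCLike.inner_apply, conj_trivial]
  rw [Fin.sum_univ_add]
  simp [mul_comm]

end Pool.Agent.P.MP_c2263a_gt
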