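import Mathlib

/-! Univariate polynomial inequalities used in the upper bound. -/

namespace Pool.Agent.P.MP_c2263a_gt

lemma pH1 (a : ℝ) (h1 : 0 ≤ a) (h2 : a ≤ 3/10) : 0 < (43/50 : ℝ) * (1 - (43/50 : ℝ)^2) * (5 + 2 * a^2 * (1 - a^2)) + 7/2 * (43/50 : ℝ) * (1 - a^2) * a^2 - 9/2 * (1 - a^2) * a := by
  have hx : 0 ≤ a - 0 := by linarith
  have hy : 0 ≤ 3/10 - a := by linarith
  nlinarith [mul_nonneg (pow_nonneg hx 0) (pow_nonneg hy 4), mul_nonneg (pow_nonneg hx 1) (pow_nonneg hy 3), mul_nonneg (pow_nonneg hx 2) (pow_nonneg hy 2), mul_nonneg (pow_nonneg hx 3) (pow_nonneg hy 1), mul_nonneg (pow_nonneg hx 4) (pow_nonneg hy 0)]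

lemma pH2 (a : ℝ) (h1 : 3/10 ≤ a) (h2 : a ≤ 3/5) : 0 < (43/50 : ℝ) * (1 - (43/50 : ℝ)^2) * (5 + 2 * a^2 * (1 - a^2)) + 7/2 * (43/50 : ℝ) * (1 - a^2) * a^2 - 9/2 * (1 - a^2) * a := by
  have hx : 0 ≤ a - 3/10 := by linarith
  have hy : 0 ≤ 3/5 - a := by linarith
  nlinarith [mul_nonneg (pow_nonneg hx 0) (pow_nonneg hy 4), mul_nonneg (pow_nonneg hx 1) (pow_nonneg hy 3), mul_nonneg (pow_nonneg hx 2) (pow_nonneg hy 2), mul_nonneg (pow_nonneg hx 3) (pow_nonneg hy 1), mul_nonneg (pow_nonneg hx 4) (pow_nonneg hy 0)]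

lemma pH3 (a : ℝ) (h1 : 3/5 ≤ a) (h2 : a ≤ 1) : 0 < (43/50 : ℝ) * (1 - (43/50 : ℝ)^2) * (5 + 2 * a^2 * (1 - a^2)) + 7/2 * (43/50 : ℝ) * (1 - a^2) * a^2 - 9/2 * (1 - a^2) * a := by
  have hx : 0 ≤ a - 3/5 := by linarith
  have hy : 0 ≤ 1 - a := by linarith
  nlinarith [mul_nonneg (pow_nonneg hx 0) (pow_nonneg hy 4), mul_nonneg (pow_nonneg hx 1) (pow_nonneg hy 3), mul_nonneg (pow_nonneg hx 2) (pow_nonneg hy 2), mul_nonneg (pow_nonneg hx 3) (pow_nonneg hy 1), mul_nonneg (pow_nonneg hx 4) (pow_nonneg hy 0)]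

lemma pS1A (a : ℝ) (h1 : 0 ≤ a) (h2 : a ≤ 13/25) : 0 < ((1 + 32/15 * ((1 - a^2) * a^2)) - 8/5 * (a * (1 + a))) := by
  have hx : 0 ≤ a - 0 := by linarith
  have hy : 0 ≤ 13/25 - a := by linarith
  nlinarith [mul_nonneg (pow_nonneg hx 0) (pow_nonneg hy 4), mul_nonneg (pow_nonneg hx 1) (pow_nonneg hy 3), mul_nonneg (pow_nonneg hx 2) (pow_nonneg hy 2), mul_nonneg (pow_nonneg hx 3) (pow_nonneg hy 1), mul_nonneg (pow_nonneg hx 4) (pow_nonneg hy 0)]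

lemma pS1 (a : ℝ) (h1 : 0 ≤ a) (h2 : a ≤ 13/25) : 0 < 5 * ((1 + 32/15 * ((1 - a^2) * a^2)) - 8/5 * (a * (1 + a))) + a^2 * ((1 + 32/15 * ((1 - a^2) * a^2)) * ((1 - a^2) - 3 * (a * (1 + a)))) := by
  have hx : 0 ≤ a - 0 := by linarith
  have hy : 0 ≤ 13/25 - a := by linarith
  nlinarith [mul_nonneg (pow_nonneg hx 0) (pow_nonneg hy 8), mul_nonneg (pow_nonneg hx 1) (pow_nonneg hy 7), mul_nonneg (pow_nonneg hx 2) (pow_nonneg hy 6), mul_nonneg (pow_nonneg hx 3) (pow_nonneg hy 5), mul_nonneg (pow_nonneg hx 4) (pow_nonneg hy 4), mul_nonneg (pow_nonneg hx 5) (pow_nonneg hy 3), mul_nonneg (pow_nonneg hx 6) (pow_nonneg hy 2), mul_nonneg (pow_nonneg hx 7) (pow_nonneg hy 1), mul_nonneg (pow_nonneg hx 8) (pow_nonneg hy 0)]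

lemma pStA (a : ℝ) (h1 : 0 ≤ a) (h2 : a ≤ 13/25) : 0 < ((43/50 : ℝ) * (1 - a * (43/50 : ℝ)) * (1 + 32/15 * ((1 - a^2) * a^2)) - 8/5 * (a * (1 - a^2))) := by
  have hx : 0 ≤ a - 0 := by linarith
  have hy : 0 ≤ 13/25 - a := by linarith
  nlinarith [mul_nonneg (pow_nonneg hx 0) (pow_nonneg hy 5), mul_nonneg (pow_nonneg hx 1) (pow_nonneg hy 4), mul_nonneg (pow_nonneg hx 2) (pow_nonneg hy 3), mul_nonneg (pow_nonneg hx 3) (pow_nonneg hy 2), mul_nonneg (pow_nonneg hx 4) (pow_nonneg hy 1), mul_nonneg (pow_nonneg hx 5) (pow_nonneg hy 0)]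

lemma pSt (a : ℝ) (h1 : 0 ≤ a) (h2 : a ≤ 13/25) : 0 < 5 * ((43/50 : ℝ) * (1 - a * (43/50 : ℝ)) * (1 + 32/15 * ((1 - a^2) * a^2)) - 8/5 * (a * (1 - a^2))) + a^2 * ((1 - a^2) * (1 + 32/15 * ((1 - a^2) * a^2)) * ((43/50 : ℝ) * (1 - a * (43/50 : ℝ)) - 3 * a)) := by
  have hx : 0 ≤ a - 0 := by linarith
  have hy : 0 ≤ 13/25 - a := by linarith
  nlinarith [mul_nonneg (pow_nonneg hx 0) (pow_nonneg hy 9), mul_nonneg (pow_nonneg hx 1) (pow_nonneg hy 8), mul_nonneg (pow_nonneg hx 2) (pow_nonneg hy 7), mul_nonneg (pow_nonneg hx 3) (pow_nonneg hy 6), mul_nonneg (pow_nonneg hx 4) (pow_nonneg hy 5), mul_nonneg (pow_nonneg hx 5) (pow_nonneg hy 4), mul_nonneg (pow_nonneg hx 6) (pow_nonneg hy 3), mul_nonneg (pow_nonneg hx 7) (pow_nonneg hy 2), mul_nonneg (pow_nonneg hx 8) (pow_nonneg hy 1), mul_nonneg (pow_nonneg hx 9) (pow_nonneg hy 0)]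

lemma pL1A (a : ℝ) (h1 : 13/25 ≤ a) (h2 : a ≤ 1) : 0 < (a^2 * (1 + 3/5 * (1 - a^2)) - 9/20 * (a * (1 + a))) := by
  have hx : 0 ≤ a - 13/25 := by linarith
  have hy : 0 ≤ 1 - a := by linarith
  nlinarith [mul_nonneg (pow_nonneg hx 0) (pow_nonneg hy 4), mul_nonneg (pow_nonneg hx 1) (pow_nonneg hy 3), mul_nonneg (pow_nonneg hx 2) (pow_nonneg hy 2), mul_nonneg (pow_nonneg hx 3) (pow_nonneg hy 1), mul_nonneg (pow_nonneg hx 4) (pow_nonneg hy 0)]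

lemma pL1a (a : ℝ) (h1 : 13/25 ≤ a) (h2 : a ≤ 59/100) : 0 < 5 * (a^2 * (1 + 3/5 * (1 - a^2)) - 9/20 * (a * (1 + a))) + a^4 * ((1 - a^2) * (1 + 3/5 * (1 - a^2)) - a * (1 + a) * (3 * (1 + 3/5 * (1 - a^2)) - 3/2 + 9/10 * (1 - a^2))) := by
  have hx : 0 ≤ a - 13/25 := by linarith
  have hy : 0 ≤ 59/100 - a := by linarith
  nlinarith [mul_nonneg (pow_nonneg hx 0) (pow_nonneg hy 8), mul_nonneg (pow_nonneg hx 1) (pow_nonneg hy 7), mul_nonneg (pow_nonneg hx 2) (pow_nonneg hy 6), mul_nonneg (pow_nonneg hx 3) (pow_nonneg hy 5), mul_nonneg (pow_nonneg hx 4) (pow_nonneg hy 4), mul_nonneg (pow_nonneg hx 5) (pow_nonneg hy 3), mul_nonneg (pow_nonneg hx 6) (pow_nonneg hy 2), mul_nonneg (pow_nonneg hx 7) (pow_nonneg hy 1), mul_nonneg (pow_nonneg hx 8) (pow_nonneg hy 0)]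

lemma pL1b (a : ℝ) (h1 : 59/100 ≤ a) (h2 : a ≤ 1) : 0 < 41 * (a^2 * (1 + 3/5 * (1 - a^2)) - 9/20 * (a * (1 + a))) + ((1 - a^2) * (1 + 3/5 * (1 - a^2)) - a * (1 + a) * (3 * (1 + 3/5 * (1 - a^2)) - 3/2 + 9/10 * (1 - a^2))) := by
  have hx : 0 ≤ a - 59/100 := by linarith
  have hy : 0 ≤ 1 - a := by linarith
  nlinarith [mul_nonneg (pow_nonneg hx 0) (pow_nonneg hy 4), mul_nonneg (pow_nonneg hx 1) (pow_nonneg hy 3), mul_nonneg (pow_nonneg hx 2) (pow_nonneg hy 2), mul_nonneg (pow_nonneg hx 3) (pow_nonneg hy 1), mul_nonneg (pow_nonneg hx 4) (pow_nonneg hy 0)]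

lemma pLtA (a : ℝ) (h1 : 13/25 ≤ a) (h2 : a ≤ 43/50) : 0 < ((43/50 : ℝ) * (1 - a * (43/50 : ℝ)) * a^2 * (1 + 3/5 * (1 - a^2)) - 9/20 * (a * (1 - a^2))) := by
  have hx : 0 ≤ a - 13/25 := by linarith
  have hy : 0 ≤ 43/50 - a := by linarith
  nlinarith [mul_nonneg (pow_nonneg hx 0) (pow_nonneg hy 5), mul_nonneg (pow_nonneg hx 1) (pow_nonneg hy 4), mul_nonneg (pow_nonneg hx 2) (pow_nonneg hy 3), mul_nonneg (pow_nonneg hx 3) (pow_nonneg hy 2), mul_nonneg (pow_nonneg hx 4) (pow_nonneg hy 1), mul_nonneg (pow_nonneg hx 5) (pow_nonneg hy 0)]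

lemma pLta (a : ℝ) (h1 : 13/25 ≤ a) (h2 : a ≤ 59/100) : 0 < 5 * ((43/50 : ℝ) * (1 - a * (43/50 : ℝ)) * a^2 * (1 + 3/5 * (1 - a^2)) - 9/20 * (a * (1 - a^2))) + a^4 * ((1 - a^2) * ((43/50 : ℝ) * (1 - a * (43/50 : ℝ)) * (1 + 3/5 * (1 - a^2)) - a * (3 * (1 + 3/5 * (1 - a^2)) - 3/2 + 9/10 * (1 - a^2)))) := by
  have hx : 0 ≤ a - 13/25 := by linarith
  have hy : 0 ≤ 59/100 - a := by linarith
  nlinarith [mul_nonneg (pow_nonneg hx 0) (pow_nonneg hy 9), mul_nonneg (pow_nonneg hx 1) (pow_nonneg hy 8), mul_nonneg (pow_nonneg hx 2) (pow_nonneg hy 7), mul_nonneg (pow_nonneg hx 3) (pow_nonneg hy 6), mul_nonneg (pow_nonneg hx 4) (pow_nonneg hy 5), mul_nonneg (pow_nonneg hx 5) (pow_nonneg hy 4), mul_nonneg (pow_nonneg hx 6) (pow_nonneg hy 3), mul_nonneg (pow_nonneg hx 7) (pow_nonneg hy 2), mul_nonneg (pow_nonneg hx 8) (pow_nonneg hy 1), mul_nonneg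 (pow_nonneg hx 9) (pow_nonneg hy 0)]

lemma pLtb (a : ℝ) (h1 : 59/100 ≤ a) (h2 : a ≤ 43/50) : 0 < 41 * ((43/50 : ℝ) * (1 - a * (43/50 : ℝ)) * a^2 * (1 + 3/5 * (1 - a^2)) - 9/20 * (a * (1 - a^2))) + ((1 - a^2) * ((43/50 : ℝ) * (1 - a * (43/50 : ℝ)) * (1 + 3/5 * (1 - a^2)) - a * (3 * (1 + 3/5 * (1 - a^2)) - 3/2 + 9/10 * (1 - a^2)))) := by
  have hx : 0 ≤ a - 59/100 := by linarith
  have hy : 0 ≤ 43/50 - a := by linarith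
  nlinarith [mul_nonneg (pow_nonneg hx 0) (pow_nonneg hy 5), mul_nonneg (pow_nonneg hx 1) (pow_nonneg hy 4), mul_nonneg (pow_nonneg hx 2) (pow_nonneg hy 3), mul_nonneg (pow_nonneg hx 3) (pow_nonneg hy 2), mul_nonneg (pow_nonneg hx 4) (pow_nonneg hy 1), mul_nonneg (pow_nonneg hx 5) (pow_nonneg hy 0)]

lemma pLaA (a : ℝ) (h1 : 43/50 ≤ a) (h2 : a ≤ 1) : 0 < (a^2 * (1 + 3/5 * (1 - a^2)) - 9/20) := by
  have hx : 0 ≤ a - 43/50 := by linarith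
  have hy : 0 ≤ 1 - a := by linarith
  nlinarith [mul_nonneg (pow_nonneg hx 0) (pow_nonneg hy 4), mul_nonneg (pow_nonneg hx 1) (pow_nonneg hy 3), mul_nonneg (pow_nonneg hx 2) (pow_nonneg hy 2), mul_nonneg (pow_nonneg hx 3) (pow_nonneg hy 1), mul_nonneg (pow_nonneg hx 4) (pow_nonneg hy 0)]

lemma pLa (a : ℝ) (h1 : 43/50 ≤ a) (h2 : a ≤ 1) : 0 < 41 * (a^2 * (1 + 3/5 * (1 - a^2)) - 9/20) + ((1 - a^2) * (1 + 3/5 * (1 - a^2)) - (3 * (1 + 3/5 * (1 - a^2)) - 3/2 + 9/10 * (1 - a^2))) := by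
  have hx : 0 ≤ a - 43/50 := by linarith
  have hy : 0 ≤ 1 - a := by linarith
  nlinarith [mul_nonneg (pow_nonneg hx 0) (pow_nonneg hy 4), mul_nonneg (pow_nonneg hx 1) (pow_nonneg hy 3), mul_nonneg (pow_nonneg hx 2) (pow_nonneg hy 2), mul_nonneg (pow_nonneg hx 3) (pow_nonneg hy 1), mul_nonneg (pow_nonneg hx 4) (pow_nonneg hy 0)]

end Pool.Agent.P.MP_c2263a_gt
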